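import Mathlib

/-! Algebra in a ring with anticommuting elements `c 0, c 1, …` (periodic of period `p`). -/

namespace H317F

open Finset

section Ring

variable {A : Type*} [Ring A]

/-- partial sums -/
def S (c : ℕ → A) (n : ℕ) : A := ∑ i ∈ range n, c i

/-- the quadratic element `∑_{a<b<p} c a * c b` -/
def W (p : ℕ) (c : ℕ → A) : A := ∑ b ∈ range p, S c b * c b

/-- shifted sequence -/
def sh (c : ℕ → A) (j : ℕ) : ℕ → A := fun n => c (n + j)

/-- the standing hypotheses -/
structure Anti (p : ℕ) (c : ℕ → A) : Prop where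
  anti : ∀ a b, c a * c b = - (c b * c a)
  sq : ∀ a, c a * c a = 0
  per : ∀ n, c (n + p) = c n

variable {p : ℕ} {c : ℕ → A}

lemma Anti.sh (h : Anti p c) (j : ℕ) : Anti p (sh c j) where
  anti a b := h.anti _ _
  sq a := h.sq _
  per n := by
    show c (n + p + j) = c (n + j)
    rw [show n + p + j = (n + j) + p by ring, h.per]

lemma S_succ (c : ℕ → A) (n : ℕ) : S c (n + 1) = S c n + c n := sum_range_succ _ _

lemma S_zero (c : ℕ → A) : S c 0 = 0 := by simp [S]

lemma S_sh_one (c : ℕ → A) (n : ℕ) : S (sh c 1) n = S c (n + 1) - c 0 := by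
  unfold S sh
  rw [sum_range_succ' (fun i => c i) n]
  abel

lemma Anti.mul_S (h : Anti p c) (a n : ℕ) : c a * S c n = - (S c n * c a) := by
  induction n with
  | zero => simp [S_zero]
  | succ n ih => rw [S_succ, mul_add, add_mul, ih, h.anti a n]; abel

lemma Anti.S_mul_S (h : Anti p c) (m n : ℕ) : S c m * S c n = - (S c n * S c m) := by
  induction m with
  | zero => simp [S_zero]
  | succ m ih => rw [S_succ, mul_add, add_mul, ih, h.mul_S m n]; abel

lemma Anti.S_sq (h : Anti p c) (n : ℕ) : S c n * S c n = 0 := by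
  induction n with
  | zero => simp [S_zero]
  | succ n ih =>
    rw [S_succ, mul_add, add_mul, add_mul, ih, h.sq, h.mul_S n n]; abel

lemma Anti.commute_W (h : Anti p c) (a : ℕ) : Commute (c a) (W p c) := by
  unfold W
  apply Commute.sum_right
  intro b _
  show c a * (S c b * c b) = S c b * c b * c a
  rw [← mul_assoc, h.mul_S, neg_mul, mul_assoc, h.anti a b, mul_assoc]
  simp

lemma Anti.commute_S_W (h : Anti p c) (n : ℕ) : Commute (S c n) (W p c) := by
  unfold S
  exact Commute.sum_left _ _ _ fun a _ => h.commute_W a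

lemma Anti.S_sh_p (h : Anti p c) (j : ℕ) : S (H317F.sh c j) p = S c p := by
  induction j with
  | zero => rfl
  | succ j ih =>
    have h1 : H317F.sh c (j + 1) = H317F.sh (H317F.sh c j) 1 := by
      funext n; unfold H317F.sh; congr 1; ring
    rw [h1, S_sh_one, S_succ, ih]
    have : H317F.sh c j p = H317F.sh c j 0 := by
      have := (h.sh j).per 0
      rwa [zero_add] at this
    rw [this]; abel

lemma Anti.W_sh_one (h : Anti p c) :
    W p (H317F.sh c 1) = W p c + 2 • (S c p * c 0) := by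
  have hp : c p = c 0 := by simpa using h.per 0
  have h1 : W p (H317F.sh c 1) = ∑ b ∈ range p, (S c (b + 1) - c 0) * c (b + 1) := by
    unfold W
    refine sum_congr rfl fun b _ => ?_
    rw [S_sh_one]; rfl
  have h2 : ∑ b ∈ range p, (S c (b + 1) - c 0) * c (b + 1) =
      (∑ b ∈ range p, (S c b - c 0) * c b) + (S c p - c 0) * c p - (S c 0 - c 0) * c 0 := by
    have h3 := sum_range_succ (fun b => (S c b - c 0) * c b) p
    have h4 := sum_range_succ' (fun b => (S c b - c 0) * c b) p
    rw [h3] at h4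
    rw [h4]; abel
  have h5 : ∑ b ∈ range p, (S c b - c 0) * c b = W p c - c 0 * S c p := by
    simp only [sub_mul, sum_sub_distrib]
    unfold W
    congr 1
    unfold S
    rw [mul_sum]
  rw [h1, h2, h5, hp, S_zero, sub_mul, zero_sub, neg_mul, h.sq, h.mul_S, two_smul]
  abel

lemma Anti.W_sh (h : Anti p c) (j : ℕ) :
    W p (H317F.sh c j) = W p c + 2 • (S c p * S c j) := by
  induction j with
  | zero =>
    rw [S_zero, mul_zero, smul_zero, add_zero]
    rfl
  | succ j ih =>
    have h1 : H317F.sh c (j + 1) = H317F.sh (H317F.sh c j) 1 := by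
      funext n; unfold H317F.sh; congr 1; ring
    rw [h1, (h.sh j).W_sh_one, ih, h.S_sh_p, S_succ, mul_add, smul_add]
    have : H317F.sh c j 0 = c j := by unfold H317F.sh; rw [zero_add]
    rw [this]; abel

/-- `(w + n)^(k+1) = w^(k+1) + (k+1) w^k n` when `n² = 0`, `n` commutes with `w`. -/
lemma add_pow_sq_zero (w n : A) (hc : Commute n w) (hn : n * n = 0) (k : ℕ) :
    (w + n) ^ (k + 1) = w ^ (k + 1) + (k + 1) • (w ^ k * n) := by
  induction k with
  | zero => simp
  | succ k ih =>
    rw [pow_succ, ih, add_mul, mul_add, mul_add, ← pow_succ]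
    have h1 : (k + 1) • (w ^ k * n) * w = (k + 1) • (w ^ (k + 1) * n) := by
      rw [smul_mul_assoc, mul_assoc, hc.eq, ← mul_assoc, ← pow_succ]
    have h2 : (k + 1) • (w ^ k * n) * n = 0 := by
      rw [smul_mul_assoc, mul_assoc, hn, mul_zero, smul_zero]
    rw [h1, h2, add_zero, add_assoc]
    congr 1
    rw [succ_nsmul' _ (k + 1)]

lemma Anti.key1 (h : Anti p c) (k : ℕ) :
    ∑ j ∈ range p, c j * (W p (H317F.sh c j)) ^ k = (2 * k + 1) • (S c p * W p c ^ k) := by
  rcases k with _ | k
  · simp [S]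
  have hcomm : ∀ j, Commute (2 • (S c p * S c j)) (W p c) := fun j =>
    ((h.commute_S_W p).mul_left (h.commute_S_W j)).smul_left 2
  have hsq : ∀ j, (2 • (S c p * S c j)) * (2 • (S c p * S c j)) = 0 := by
    intro j
    rw [smul_mul_smul_comm, ← mul_assoc, mul_assoc (S c p) (S c j), h.S_mul_S j p, mul_neg,
      ← mul_assoc, h.S_sq]
    simp
  have h1 : ∀ j, c j * (W p (H317F.sh c j)) ^ (k + 1) =
      c j * W p c ^ (k + 1) + (2 * (k + 1)) • (W p c ^ k * (S c p * (S c j * c j))) := by
    intro j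
    rw [h.W_sh, add_pow_sq_zero _ _ (hcomm j) (hsq j), mul_add]
    congr 1
    rw [mul_smul_comm, mul_smul_comm, mul_smul_comm, smul_smul]
    congr 1
    · ring
    rw [← mul_assoc, ((h.commute_W j).pow_right k).eq, mul_assoc]
    congr 1
    rw [← mul_assoc, h.mul_S, neg_mul, mul_assoc, h.mul_S, mul_neg, neg_neg]
  rw [sum_congr rfl fun j _ => h1 j, sum_add_distrib, ← sum_mul, ← smul_sum, ← mul_sum,
    ← mul_sum]
  show S c p * W p c ^ (k + 1) + (2 * (k + 1)) • (W p c ^ k * (S c p * W p c)) = _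
  rw [(h.commute_S_W p).eq, ← mul_assoc, ← pow_succ, ((h.commute_S_W p).pow_right (k + 1)).eq,
    ← succ_nsmul']

/-- product with `S p` kills the correction -/
lemma Anti.key2 (h : Anti p c) (k j : ℕ) :
    S c p * (W p (H317F.sh c j)) ^ k = S c p * W p c ^ k := by
  rcases k with _ | k
  · simp
  have hcomm : Commute (2 • (S c p * S c j)) (W p c) :=
    ((h.commute_S_W p).mul_left (h.commute_S_W j)).smul_left 2
  have hsq : (2 • (S c p * S c j)) * (2 • (S c p * S c j)) = 0 := by
    rw [smul_mul_smul_comm, ← mul_assoc, mul_assoc (S c p) (S c j), h.S_mul_S j p, mul_neg,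
      ← mul_assoc, h.S_sq]
    simp
  rw [h.W_sh, add_pow_sq_zero _ _ hcomm hsq, mul_add, mul_smul_comm, mul_smul_comm,
    mul_smul_comm, ← mul_assoc, ((h.commute_S_W p).pow_right k).eq, mul_assoc, ← mul_assoc (S c p),
    h.S_sq]
  simp

lemma Anti.key3 (h : Anti p c) (a k : ℕ) (w' : A) (hw : W p c = w' + 2 • (S c p * c a)) :
    w' ^ (k + 1) = W p c ^ (k + 1) + (2 * (k + 1)) • (c a * (S c p * W p c ^ k)) := by
  have hcomm : Commute (-(2 • (S c p * c a))) (W p c) :=
    (((h.commute_S_W p).mul_left (h.commute_W a)).smul_left 2).neg_left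
  have hsq : (-(2 • (S c p * c a))) * (-(2 • (S c p * c a))) = 0 := by
    rw [neg_mul_neg, smul_mul_smul_comm, ← mul_assoc, mul_assoc (S c p) (c a),
      h.mul_S a p, mul_neg, ← mul_assoc, h.S_sq]
    simp
  have e9 : w' = W p c + -(2 • (S c p * c a)) := by rw [hw]; abel
  rw [e9, add_pow_sq_zero _ _ hcomm hsq, mul_neg, mul_smul_comm, ← smul_neg, smul_smul,
    mul_comm (k + 1) 2]
  congr 2
  rw [← mul_neg, ← h.mul_S, ← mul_assoc, ← ((h.commute_W a).pow_right k).eq, mul_assoc,
    ← ((h.commute_S_W p).pow_right k).eq]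

end Ring

end H317F
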