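import Mathlib

/-!
Cochains on lists (ordered simplices) with values in an abelian group, their coboundary, and the
pull-back under barycentric subdivision.
-/

namespace H317F

section Cochain

variable {E F M M' : Type*} [AddCommGroup M] [AddCommGroup M']

/-- The coboundary of a cochain `ψ`, evaluated at a list: alternating sum over the faces. -/
def del : List E → (List E → M) → M
  | [], _ => 0
  | a :: l, ψ => ψ l - del l (fun m => ψ (a :: m))

@[simp] lemma del_nil (ψ : List E → M) : del [] ψ = 0 := rfl

@[simp] lemma del_cons (a : E) (l : List E) (ψ : List E → M) :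
    del (a :: l) ψ = ψ l - del l (fun m => ψ (a :: m)) := rfl

lemma del_sub (l : List E) (ψ φ : List E → M) :
    del l (fun m => ψ m - φ m) = del l ψ - del l φ := by
  induction l generalizing ψ φ with
  | nil => simp
  | cons a l ih => rw [del_cons, del_cons, del_cons, ih]; abel

lemma del_add (l : List E) (ψ φ : List E → M) :
    del l (fun m => ψ m + φ m) = del l ψ + del l φ := by
  induction l generalizing ψ φ with
  | nil => simp
  | cons a l ih => rw [del_cons, del_cons, del_cons, ih]; abel

lemma del_zero (l : List E) : del l (fun _ => (0 : M)) = 0 := by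
  induction l with
  | nil => simp
  | cons a l ih => rw [del_cons, ih]; simp

lemma del_map_hom (f : M →+ M') (l : List E) (ψ : List E → M) :
    f (del l ψ) = del l (fun m => f (ψ m)) := by
  induction l generalizing ψ with
  | nil => simp
  | cons a l ih => rw [del_cons, del_cons, map_sub, ih]

lemma del_sum {ι : Type*} (s : Finset ι) (l : List E) (ψ : ι → List E → M) :
    del l (fun m => ∑ i ∈ s, ψ i m) = ∑ i ∈ s, del l (ψ i) := by
  classical
  induction s using Finset.induction_on with
  | empty => simp [del_zero]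
  | insert i s hi ih =>
    simp only [Finset.sum_insert hi]
    rw [del_add, ih]

lemma del_congr {l : List E} {ψ φ : List E → M}
    (h : ∀ m : List E, m.length + 1 = l.length → ψ m = φ m) : del l ψ = del l φ := by
  induction l generalizing ψ φ with
  | nil => simp
  | cons a l ih =>
    rw [del_cons, del_cons, h l (by simp), ih]
    intro m hm
    exact h _ (by simp [hm])

lemma del_del (l : List E) (ψ : List E → M) : del l (fun m => del m ψ) = 0 := by
  induction l generalizing ψ with
  | nil => simp
  | cons a l ih =>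
    rw [del_cons]
    have : (fun m => del (a :: m) ψ) = fun m => ψ m - del m (fun k => ψ (a :: k)) := by
      funext m; rw [del_cons]
    rw [this, del_sub, ih]
    simp

lemma del_map (g : E → F) (l : List E) (ψ : List F → M) :
    del (l.map g) ψ = del l (fun m => ψ (m.map g)) := by
  induction l generalizing ψ with
  | nil => simp
  | cons a l ih => rw [List.map_cons, del_cons, del_cons, ih]; simp

lemma exists_of_del_ne_zero {l : List E} {ψ : List E → M} (h : del l ψ ≠ 0) :
    ∃ m : List E, m.length + 1 = l.length ∧ m ⊆ l ∧ ψ m ≠ 0 := by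
  induction l generalizing ψ with
  | nil => exact absurd (del_nil ψ) h
  | cons a l ih =>
    rw [del_cons] at h
    by_cases h1 : ψ l = 0
    · rw [h1, zero_sub, neg_ne_zero] at h
      obtain ⟨m, h2, h3, h4⟩ := ih h
      refine ⟨a :: m, by simp [h2], ?_, h4⟩
      exact List.cons_subset_cons a h3
    · exact ⟨l, by simp, List.subset_cons_self a l, h1⟩

/-- auxiliary function for the subdivision operator -/
def sd (b : List E → E) : ℕ → (List E → M) → List E → M
  | 0, ψ, l => ψ l
  | n + 1, ψ, l => del l (sd b n (fun m => ψ (b l :: m)))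

lemma sd_zero' (b : List E → E) (ψ : List E → M) (l : List E) : sd b 0 ψ l = ψ l := rfl

lemma sd_succ (b : List E → E) (n : ℕ) (ψ : List E → M) (l : List E) :
    sd b (n + 1) ψ l = del l (sd b n (fun m => ψ (b l :: m))) := rfl

lemma sd_sub (b : List E → E) (n : ℕ) (ψ φ : List E → M) (l : List E) :
    sd b n (fun m => ψ m - φ m) l = sd b n ψ l - sd b n φ l := by
  induction n generalizing ψ φ l with
  | zero => rfl
  | succ n ih =>
    rw [sd_succ, sd_succ, sd_succ, ← del_sub]
    congr 1
    funext m
    exact ih _ _ m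

lemma sd_map_hom (f : M →+ M') (b : List E → E) (n : ℕ) (ψ : List E → M) (l : List E) :
    f (sd b n ψ l) = sd b n (fun m => f (ψ m)) l := by
  induction n generalizing ψ l with
  | zero => rfl
  | succ n ih =>
    rw [sd_succ, sd_succ, del_map_hom]
    congr 1
    funext m
    exact ih _ m

lemma sd_zero_fun (b : List E → E) (n : ℕ) (l : List E) :
    sd b n (fun _ => (0 : M)) l = 0 := by
  induction n generalizing l with
  | zero => rfl
  | succ n ih =>
    rw [sd_succ]
    have : (sd b n fun _ : List E => (0 : M)) = fun _ => 0 := by funext m; exact ih m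
    rw [this, del_zero]

lemma sd_del (b : List E → E) (n : ℕ) (ψ : List E → M) (l : List E) (hl : l.length = n + 1) :
    sd b (n + 1) (fun m => del m ψ) l = del l (sd b n ψ) := by
  induction n generalizing ψ l with
  | zero =>
    rw [sd_succ]
    obtain ⟨a, rfl⟩ : ∃ a, l = [a] := List.length_eq_one_iff.mp hl
    simp [sd_zero']
  | succ n ih =>
    rw [sd_succ]
    have h1 : (fun m => del (b l :: m) ψ) = fun m => ψ m - del m (fun k => ψ (b l :: k)) := by
      funext m; rw [del_cons]
    rw [h1]
    have h2 : (sd b (n + 1) fun m => ψ m - del m (fun k => ψ (b l :: k))) =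
        fun m => sd b (n + 1) ψ m - sd b (n + 1) (fun m => del m (fun k => ψ (b l :: k))) m := by
      funext m; rw [sd_sub]
    rw [h2, del_sub]
    have h3 : del l (sd b (n + 1) (fun m => del m (fun k => ψ (b l :: k)))) = 0 := by
      rw [del_congr (φ := fun m => del m (sd b n (fun k => ψ (b l :: k)))), del_del]
      intro m hm
      exact ih _ m (by omega)
    rw [h3, sub_zero]

/-- The pull-back of a cochain under barycentric subdivision. -/
def Sd (b : List E → E) (ψ : List E → M) (l : List E) : M := sd b l.length ψ l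

@[simp] lemma Sd_nil (b : List E → E) (ψ : List E → M) : Sd b ψ [] = ψ [] := rfl

lemma Sd_del (b : List E → E) (ψ : List E → M) (l : List E) :
    Sd b (fun m => del m ψ) l = del l (Sd b ψ) := by
  unfold Sd
  rcases h : l.length with _ | n
  · have : l = [] := List.length_eq_zero_iff.mp h
    subst this
    simp [sd_zero']
  · rw [sd_del b n ψ l h]
    apply del_congr
    intro m hm
    have : m.length = n := by omega
    rw [this]

lemma Sd_map_hom (f : M →+ M') (b : List E → E) (ψ : List E → M) (l : List E) :
    f (Sd b ψ l) = Sd b (fun m => f (ψ m)) l := sd_map_hom f b _ ψ l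

lemma sd_natural (b : List E → E) (b' : List F → F) (g : E → F)
    (hg : ∀ l : List E, b' (l.map g) = g (b l)) (n : ℕ) (ψ : List F → M) (l : List E) :
    sd b' n ψ (l.map g) = sd b n (fun m => ψ (m.map g)) l := by
  induction n generalizing ψ l with
  | zero => rfl
  | succ n ih =>
    rw [sd_succ, sd_succ, del_map]
    congr 1
    funext m
    rw [ih, hg]
    simp

lemma Sd_natural (b : List E → E) (b' : List F → F) (g : E → F)
    (hg : ∀ l : List E, b' (l.map g) = g (b l)) (ψ : List F → M) (l : List E) :
    Sd b' ψ (l.map g) = Sd b (fun m => ψ (m.map g)) l := by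
  unfold Sd
  rw [List.length_map, sd_natural b b' g hg]

end Cochain

section Geometry

variable {E M : Type*} [NormedAddCommGroup E] [NormedSpace ℝ E] [AddCommGroup M]

/-- barycentre of a list -/
noncomputable def bary (l : List E) : E := ((l.length : ℝ)⁻¹) • l.sum

lemma bary_mem {l : List E} (hl : l ≠ []) : bary l ∈ convexHull ℝ {x | x ∈ l} := by
  have hpos : (0 : ℝ) < l.length := by
    have : 0 < l.length := List.length_pos_iff.mpr hl
    exact_mod_cast this
  have h1 : l.sum = ∑ i : Fin l.length, l.get i := by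
    conv_lhs => rw [← List.ofFn_get l]
    rw [List.sum_ofFn]
  have h2 : bary l = ∑ i : Fin l.length, ((l.length : ℝ)⁻¹) • l.get i := by
    rw [bary, h1, Finset.smul_sum]
  rw [h2]
  apply (convex_convexHull ℝ _).sum_mem
  · intro i _; positivity
  · simp [hpos.ne']
  · intro i _
    apply subset_convexHull
    exact List.get_mem l i

/-- all pairwise distances in a list are at most `D` -/
def Small (D : ℝ) (l : List E) : Prop := ∀ x ∈ l, ∀ y ∈ l, dist x y ≤ D

lemma dist_bary_vertex {l : List E} {D : ℝ} {n : ℕ} (hl : l.length = n + 1) (hD : Small D l)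
    {x : E} (hx : x ∈ l) : dist x (bary l) ≤ D * (n / (n + 1)) := by
  have hD0 : 0 ≤ D := by simpa using hD x hx x hx
  have hpos : (0 : ℝ) < (n : ℝ) + 1 := by positivity
  have h1 : l.sum = ∑ i : Fin l.length, l.get i := by
    conv_lhs => rw [← List.ofFn_get l]
    rw [List.sum_ofFn]
  obtain ⟨i₀, hi₀⟩ := List.mem_iff_get.mp hx
  have h2 : x - bary l = ((l.length : ℝ)⁻¹) • ∑ i : Fin l.length, (x - l.get i) := by
    rw [bary, h1, Finset.sum_sub_distrib, smul_sub]
    congr 1
    simp only [Finset.sum_const, Finset.card_univ, Fintype.card_fin]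
    rw [← Nat.cast_smul_eq_nsmul ℝ, smul_smul, hl]
    push_cast
    rw [inv_mul_cancel₀ hpos.ne', one_smul]
  rw [dist_eq_norm, h2, norm_smul]
  have h3 : ‖∑ i : Fin l.length, (x - l.get i)‖ ≤ n * D := by
    have h4 : ∑ i : Fin l.length, (x - l.get i) = ∑ i ∈ Finset.univ.erase i₀, (x - l.get i) := by
      rw [← Finset.add_sum_erase _ _ (Finset.mem_univ i₀), hi₀, sub_self, zero_add]
    rw [h4]
    refine (norm_sum_le _ _).trans ?_
    have h5 : ∀ i ∈ Finset.univ.erase i₀, ‖x - l.get i‖ ≤ D := by
      intro i _
      rw [← dist_eq_norm]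
      exact hD x hx _ (List.get_mem l i)
    refine (Finset.sum_le_card_nsmul _ _ _ h5).trans ?_
    rw [Finset.card_erase_of_mem (Finset.mem_univ _), Finset.card_univ, Fintype.card_fin, hl]
    simp
  have hlen : (l.length : ℝ) = (n : ℝ) + 1 := by rw [hl]; push_cast; rfl
  rw [norm_inv, Real.norm_natCast, hlen]
  calc ((n : ℝ) + 1)⁻¹ * ‖∑ i : Fin l.length, (x - l.get i)‖ ≤ ((n : ℝ) + 1)⁻¹ * (n * D) := by
        gcongr
    _ = D * (n / (n + 1)) := by field_simp

lemma dist_bary_hull {l : List E} {D : ℝ} {n : ℕ} (hl : l.length = n + 1) (hD : Small D l)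
    {x : E} (hx : x ∈ convexHull ℝ {y | y ∈ l}) : dist x (bary l) ≤ D * (n / (n + 1)) := by
  have h1 : {y | y ∈ l} ⊆ Metric.closedBall (bary l) (D * (n / (n + 1))) := by
    intro y hy
    exact Metric.mem_closedBall.mpr (dist_bary_vertex hl hD hy)
  have h2 := convexHull_min h1 (convex_closedBall _ _)
  exact Metric.mem_closedBall.mp (h2 hx)

lemma exists_of_sd_ne_zero {N : ℕ} {D : ℝ} (n : ℕ) (hn : n ≤ N + 1) {ψ : List E → M} {l : List E}
    (hl : l.length = n) (hD : Small D l) (h : sd bary n ψ l ≠ 0) :
    ∃ m : List E, m.length = n ∧ ψ m ≠ 0 ∧ (∀ x ∈ m, x ∈ convexHull ℝ {y | y ∈ l}) ∧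
      Small (D * (N / (N + 1))) m := by
  induction n generalizing ψ l with
  | zero =>
    have : l = [] := List.length_eq_zero_iff.mp hl
    subst this
    refine ⟨[], rfl, h, by simp, ?_⟩
    intro x hx; simp at hx
  | succ n ih =>
    rw [sd_succ] at h
    obtain ⟨l', h1, h2, h3⟩ := exists_of_del_ne_zero h
    have hl' : l'.length = n := by omega
    have hD' : Small D l' := fun x hx y hy => hD x (h2 hx) y (h2 hy)
    obtain ⟨m', h4, h5, h6, h7⟩ := ih (by omega) hl' hD' h3
    have hne : l ≠ [] := by
      intro h0; rw [h0] at hl; simp at hl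
    have hsub : convexHull ℝ {y | y ∈ l'} ⊆ convexHull ℝ {y | y ∈ l} :=
      convexHull_mono fun y hy => h2 hy
    have hD0 : 0 ≤ D := by
      obtain ⟨x, hx⟩ := List.exists_mem_of_ne_nil l hne
      simpa using hD x hx x hx
    have hfrac : D * ((n : ℝ) / (n + 1)) ≤ D * (N / (N + 1)) := by
      apply mul_le_mul_of_nonneg_left _ hD0
      have hnN : (n : ℝ) ≤ N := by
        have : n ≤ N := by omega
        exact_mod_cast this
      rw [div_le_div_iff₀ (by positivity) (by positivity)]
      nlinarith
    refine ⟨bary l :: m', by simp [h4], h5, ?_, ?_⟩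
    · intro x hx
      rcases List.mem_cons.mp hx with rfl | hx
      · exact bary_mem hne
      · exact hsub (h6 x hx)
    · intro x hx y hy
      rcases List.mem_cons.mp hx with rfl | hx
      · rcases List.mem_cons.mp hy with rfl | hy
        · rw [dist_self]; positivity
        · rw [dist_comm]
          exact (dist_bary_hull hl hD (hsub (h6 y hy))).trans hfrac
      · rcases List.mem_cons.mp hy with rfl | hy
        · exact (dist_bary_hull hl hD (hsub (h6 x hx))).trans hfrac
        · exact h7 x hx y hy

/-- iterated subdivision -/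
noncomputable def SdI (r : ℕ) (ψ : List E → M) : List E → M := (Sd (M := M) bary)^[r] ψ

lemma SdI_zero (ψ : List E → M) : SdI 0 ψ = ψ := rfl

lemma SdI_succ (r : ℕ) (ψ : List E → M) : SdI (r + 1) ψ = Sd bary (SdI r ψ) :=
  Function.iterate_succ_apply' _ _ _

lemma SdI_nil (r : ℕ) (ψ : List E → M) : SdI r ψ [] = ψ [] := by
  induction r with
  | zero => rfl
  | succ r ih => rw [SdI_succ, Sd_nil, ih]

lemma SdI_del (r : ℕ) (ψ : List E → M) (l : List E) :
    SdI r (fun m => del m ψ) l = del l (SdI r ψ) := by
  induction r generalizing l with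
  | zero => rfl
  | succ r ih =>
    rw [SdI_succ, SdI_succ]
    have : SdI r (fun m => del m ψ) = fun m => del m (SdI r ψ) := by funext m; exact ih m
    rw [this, Sd_del]

lemma SdI_map_hom {M' : Type*} [AddCommGroup M'] (f : M →+ M') (r : ℕ) (ψ : List E → M)
    (l : List E) : f (SdI r ψ l) = SdI r (fun m => f (ψ m)) l := by
  induction r generalizing l with
  | zero => rfl
  | succ r ih =>
    rw [SdI_succ, SdI_succ, Sd_map_hom]
    congr 1
    funext m
    exact ih m

lemma SdI_natural (g : E → E) (hg : ∀ l : List E, bary (l.map g) = g (bary l)) (r : ℕ)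
    (ψ : List E → M) (l : List E) :
    SdI r ψ (l.map g) = SdI r (fun m => ψ (m.map g)) l := by
  induction r generalizing l with
  | zero => rfl
  | succ r ih =>
    rw [SdI_succ, SdI_succ, Sd_natural bary bary g hg]
    congr 1
    funext m
    exact ih m

lemma bary_map_linear (g : E →ₗ[ℝ] E) (l : List E) : bary (l.map g) = g (bary l) := by
  rw [bary, bary, List.length_map, map_smul, map_list_sum]

lemma exists_of_SdI_ne_zero {N : ℕ} {D : ℝ} (r : ℕ) {ψ : List E → M} {l : List E}
    (hl : l.length ≤ N + 1) (hD : Small D l) (h : SdI r ψ l ≠ 0) :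
    ∃ m : List E, m.length = l.length ∧ ψ m ≠ 0 ∧ (∀ x ∈ m, x ∈ convexHull ℝ {y | y ∈ l}) ∧
      Small (D * (N / (N + 1)) ^ r) m := by
  induction r generalizing l D with
  | zero =>
    refine ⟨l, rfl, h, fun x hx => subset_convexHull ℝ _ hx, ?_⟩
    simpa using hD
  | succ r ih =>
    rw [SdI_succ] at h
    obtain ⟨m, h1, h2, h3, h4⟩ := exists_of_sd_ne_zero (N := N) (D := D) l.length hl rfl hD h
    obtain ⟨m', h5, h6, h7, h8⟩ := ih (by omega) h4 h2
    refine ⟨m', by omega, h6, ?_, ?_⟩
    · intro x hx
      have h9 : convexHull ℝ {y | y ∈ m} ⊆ convexHull ℝ {y | y ∈ l} :=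
        convexHull_min (fun y hy => h3 y hy) (convex_convexHull ℝ _)
      exact h9 (h7 x hx)
    · rw [pow_succ, mul_comm (((N : ℝ) / (N + 1)) ^ r), ← mul_assoc]
      exact h8

end Geometry

end H317F
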