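import Mathlib
import Pool.Agent.H317F.Sd
import Pool.Agent.H317F.Alg

/-! The exterior algebra on `ZMod p → ZMod p`, contraction operators and the cyclic shift. -/

set_option linter.unusedSectionVars false

namespace H317F

open Finset

section Ext

variable (p : ℕ) [NeZero p]

abbrev V := ZMod p → ZMod p
abbrev L := ExteriorAlgebra (ZMod p) (V p)

/-- scalar part -/
noncomputable def ev : L p →ₐ[ZMod p] ZMod p := ExteriorAlgebra.algebraMapInv

/-- generators -/
noncomputable def e (j : ZMod p) : L p := ExteriorAlgebra.ι (ZMod p) (Pi.single j 1)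

/-- contraction operators -/
noncomputable def C (n : ℕ) : Module.End (ZMod p) (L p) :=
  CliffordAlgebra.contractLeft (Q := (0 : QuadraticForm (ZMod p) (V p)))
    (LinearMap.proj (n : ZMod p))

/-- cyclic shift of coordinates -/
def shiftV : V p →ₗ[ZMod p] V p := LinearMap.funLeft (ZMod p) (ZMod p) (fun i => i - 1)

noncomputable def h : L p →ₐ[ZMod p] L p := ExteriorAlgebra.map (shiftV p)

noncomputable def H : Module.End (ZMod p) (L p) := (h p).toLinearMap

lemma antiC : Anti p (C p) where
  anti a b := by
    apply LinearMap.ext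
    intro x
    exact CliffordAlgebra.contractLeft_comm _ _ _
  sq a := by
    apply LinearMap.ext
    intro x
    exact CliffordAlgebra.contractLeft_contractLeft _ _
  per n := by unfold C; simp

lemma C_ι_mul (n : ℕ) (m : V p) (x : L p) :
    C p n (ExteriorAlgebra.ι (ZMod p) m * x) =
      m (n : ZMod p) • x - ExteriorAlgebra.ι (ZMod p) m * C p n x :=
  CliffordAlgebra.contractLeft_ι_mul _ _ _

lemma C_algebraMap (n : ℕ) (r : ZMod p) : C p n (algebraMap _ _ r) = 0 :=
  CliffordAlgebra.contractLeft_algebraMap _ _ _

lemma C_one (n : ℕ) : C p n 1 = 0 :=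
  CliffordAlgebra.contractLeft_one _ _

lemma h_ι (m : V p) : h p (ExteriorAlgebra.ι (ZMod p) m) =
    ExteriorAlgebra.ι (ZMod p) (shiftV p m) := ExteriorAlgebra.map_apply_ι _ _

lemma H_C (n : ℕ) : H p * C p n = C p (n + 1) * H p := by
  apply LinearMap.ext
  intro x
  show h p (C p n x) = C p (n + 1) (h p x)
  induction x using CliffordAlgebra.left_induction with
  | algebraMap r =>
    rw [C_algebraMap, AlgHom.commutes, C_algebraMap, map_zero]
  | add x y hx hy => simp only [map_add, hx, hy]
  | ι_mul x m hx =>
    show h p (C p n (ExteriorAlgebra.ι (ZMod p) m * x)) =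
      C p (n + 1) (h p (ExteriorAlgebra.ι (ZMod p) m * x))
    rw [C_ι_mul, map_sub, map_smul, map_mul, map_mul, hx, h_ι, C_ι_mul]
    congr 2
    simp [shiftV, LinearMap.funLeft_apply]

lemma ev_H (x : L p) : ev p (H p x) = ev p x := by
  have : (ev p).comp (h p) = ev p := by
    apply ExteriorAlgebra.hom_ext
    apply LinearMap.ext
    intro m
    show ev p (h p (ExteriorAlgebra.ι (ZMod p) m)) = ev p (ExteriorAlgebra.ι (ZMod p) m)
    rw [h_ι]
    unfold ev ExteriorAlgebra.algebraMapInv
    simp
  exact DFunLike.congr_fun this x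

/-- the boundary operator -/
noncomputable def Sg : Module.End (ZMod p) (L p) := S (C p) p

lemma sum_single (j : ZMod p) :
    ∑ i ∈ range p, (Pi.single j (1 : ZMod p) : ZMod p → ZMod p) (i : ZMod p) = 1 := by
  rw [sum_eq_single j.val]
  · rw [ZMod.natCast_zmod_val]; simp
  · intro b hb hne
    have : (b : ZMod p) ≠ j := by
      intro h
      apply hne
      rw [← h, ZMod.val_natCast, Nat.mod_eq_of_lt (mem_range.mp hb)]
    simp [this]
  · intro h
    exact absurd (mem_range.mpr (ZMod.val_lt j)) h

lemma Sg_e_mul (j : ZMod p) (x : L p) : Sg p (e p j * x) = x - e p j * Sg p x := by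
  have h1 : ∀ y : L p, Sg p y = ∑ i ∈ range p, C p i y := by
    intro y
    unfold Sg S
    rw [LinearMap.sum_apply]
  rw [h1, h1, mul_sum]
  have h2 : ∀ i, C p i (e p j * x) =
      (Pi.single j (1 : ZMod p) : ZMod p → ZMod p) (i : ZMod p) • x - e p j * C p i x := by
    intro i
    exact C_ι_mul p i _ x
  rw [sum_congr rfl fun i _ => h2 i, sum_sub_distrib, ← sum_smul, sum_single, one_smul]

lemma Sg_one : Sg p 1 = 0 := by
  unfold Sg S
  rw [LinearMap.sum_apply]
  exact sum_eq_zero fun i _ => C_one p i

lemma h_e (j : ZMod p) : h p (e p j) = e p (j + 1) := by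
  unfold e
  rw [h_ι]
  congr 1
  funext i
  simp only [shiftV, LinearMap.funLeft_apply, Pi.single_apply]
  congr 1
  apply propext
  constructor
  · intro h; rw [← h]; ring
  · intro h; rw [h]; ring

/-- product of generators along a list of labels -/
noncomputable def P {E : Type*} (lam : E → ZMod p) (l : List E) : L p :=
  (l.map fun x => e p (lam x)).prod

lemma Sg_P {E : Type*} (lam : E → ZMod p) (l : List E) : Sg p (P p lam l) = del l (P p lam) := by
  induction l with
  | nil => simp [P, Sg_one]
  | cons a l ih =>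
    have h1 : ∀ m, P p lam (a :: m) = e p (lam a) * P p lam m := by
      intro m; simp [P]
    rw [h1, Sg_e_mul, ih, del_cons]
    congr 1
    have h2 := del_map_hom (AddMonoidHom.mulLeft (e p (lam a))) l (P p lam)
    simp only [AddMonoidHom.coe_mulLeft] at h2
    rw [h2]
    congr 1

lemma P_nil {E : Type*} (lam : E → ZMod p) : P p lam [] = 1 := by simp [P]

lemma h_P {E : Type*} (lam lam' : E → ZMod p) (l : List E) (hl : ∀ x ∈ l, lam' x = lam x + 1) :
    h p (P p lam l) = P p lam' l := by
  induction l with
  | nil => simp [P]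
  | cons a l ih =>
    have h1 : ∀ lam : E → ZMod p, ∀ m, P p lam (a :: m) = e p (lam a) * P p lam m := by
      intro lam m; simp [P]
    rw [h1, h1, map_mul, h_e, ih fun x hx => hl x (List.mem_cons_of_mem _ hx),
      hl a List.mem_cons_self]

lemma P_ne_zero {E : Type*} (lam : E → ZMod p) (l : List E) (hl : P p lam l ≠ 0) :
    (l.map lam).Nodup := by
  by_contra hcon
  apply hl
  have h1 : P p lam l = ExteriorAlgebra.ιMulti (ZMod p) l.length
      (fun i => (Pi.single (lam (l.get i)) 1 : V p)) := by
    rw [ExteriorAlgebra.ιMulti_apply]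
    unfold P e
    congr 1
    conv_lhs => rw [← List.ofFn_get l]
    rw [List.map_ofFn]
    rfl
  rw [h1]
  rw [List.nodup_iff_injective_get] at hcon
  unfold Function.Injective at hcon
  push Not at hcon
  obtain ⟨i, j, h2, h3⟩ := hcon
  have hlen : (l.map lam).length = l.length := List.length_map _
  apply AlternatingMap.map_eq_zero_of_eq _ _ (i := Fin.cast hlen i) (j := Fin.cast hlen j)
  · simp only [List.get_eq_getElem, List.getElem_map] at h2
    simp only [List.get_eq_getElem, Fin.val_cast]
    rw [h2]
  · intro h4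
    apply h3
    have := congrArg Fin.val h4
    simp only [Fin.val_cast] at this
    exact Fin.ext this

end Ext

end H317F
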