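import Mathlib
import Pool.Agent.H317F.Ext

/-! The pairing computation: the degree of an equivariant map is a unit modulo `p`. -/

set_option linter.unusedSectionVars false

namespace H317F

open Finset

section Chains

variable {p : ℕ} {M M' : Type*} [AddCommGroup M] [AddCommGroup M']

lemma sum_shift (F : ℕ → M) (hF : F p = F 0) : ∑ i ∈ range p, F (i + 1) = ∑ i ∈ range p, F i := by
  have h1 := sum_range_succ F p
  have h2 := sum_range_succ' F p
  rw [h1, hF] at h2
  exact (add_right_cancel h2).symm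

/-- pairing the first two entries with the chain `∑ [i, i+1]` -/
def Zo (p : ℕ) (ψ : List (ZMod p) → M) (l : List (ZMod p)) : M :=
  ∑ i ∈ range p, ψ ((i : ZMod p) :: ((i + 1 : ℕ) : ZMod p) :: l)

/-- pairing with the `k`-th power of `∑ [i, i+1]` -/
def B (p : ℕ) : ℕ → (List (ZMod p) → M) → M
  | 0, ψ => ψ []
  | k + 1, ψ => B p k (Zo p ψ)

lemma Zo_del (ψ : List (ZMod p) → M) (l : List (ZMod p)) :
    Zo p (fun m => del m ψ) l = del l (Zo p ψ) := by
  have h1 : Zo p (fun m => del m ψ) l =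
      ∑ i ∈ range p, ((ψ (((i + 1 : ℕ) : ZMod p) :: l) - ψ ((i : ZMod p) :: l)) +
        del l (fun m => ψ ((i : ZMod p) :: ((i + 1 : ℕ) : ZMod p) :: m))) := by
    unfold Zo
    refine sum_congr rfl fun i _ => ?_
    simp only [del_cons]
    abel
  rw [h1, sum_add_distrib, sum_sub_distrib,
    sum_shift (fun i => ψ ((i : ZMod p) :: l)) (by simp), sub_self, zero_add]
  unfold Zo
  rw [del_sum]

lemma B_congr (k : ℕ) {ψ φ : List (ZMod p) → M} (h : ∀ l, l.length = 2 * k → ψ l = φ l) :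
    B p k ψ = B p k φ := by
  induction k generalizing ψ φ with
  | zero => exact h [] rfl
  | succ k ih =>
    show B p k (Zo p ψ) = B p k (Zo p φ)
    apply ih
    intro l hl
    unfold Zo
    refine sum_congr rfl fun i _ => h _ ?_
    simp [hl]; ring

lemma B_zero (k : ℕ) : B p k (fun _ : List (ZMod p) => (0 : M)) = 0 := by
  induction k with
  | zero => rfl
  | succ k ih =>
    show B p k (Zo p (fun _ => (0 : M))) = 0
    have : Zo p (fun _ : List (ZMod p) => (0 : M)) = fun _ => 0 := by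
      funext l; unfold Zo; simp
    rw [this, ih]

lemma B_del (k : ℕ) (ψ : List (ZMod p) → M) : B p k (fun m => del m ψ) = 0 := by
  induction k generalizing ψ with
  | zero => rfl
  | succ k ih =>
    show B p k (Zo p (fun m => del m ψ)) = 0
    have : Zo p (fun m => del m ψ) = fun m => del m (Zo p ψ) := by
      funext l; exact Zo_del ψ l
    rw [this, ih]

lemma B_hom (f : M →+ M') (k : ℕ) (ψ : List (ZMod p) → M) :
    f (B p k ψ) = B p k (fun l => f (ψ l)) := by
  induction k generalizing ψ with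
  | zero => rfl
  | succ k ih =>
    show f (B p k (Zo p ψ)) = B p k (Zo p (fun l => f (ψ l)))
    rw [ih]
    congr 1
    funext l
    unfold Zo
    rw [map_sum]

lemma B_sub (k : ℕ) (ψ φ : List (ZMod p) → M) :
    B p k (fun l => ψ l - φ l) = B p k ψ - B p k φ := by
  induction k generalizing ψ φ with
  | zero => rfl
  | succ k ih =>
    show B p k (Zo p _) = B p k (Zo p ψ) - B p k (Zo p φ)
    rw [← ih]
    congr 1
    funext l
    unfold Zo
    rw [← sum_sub_distrib]

lemma B_add (k : ℕ) (ψ φ : List (ZMod p) → M) :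
    B p k (fun l => ψ l + φ l) = B p k ψ + B p k φ := by
  induction k generalizing ψ φ with
  | zero => rfl
  | succ k ih =>
    show B p k (Zo p _) = B p k (Zo p ψ) + B p k (Zo p φ)
    rw [← ih]
    congr 1
    funext l
    unfold Zo
    rw [← sum_add_distrib]

lemma B_sum {ι : Type*} (s : Finset ι) (k : ℕ) (ψ : ι → List (ZMod p) → M) :
    B p k (fun l => ∑ i ∈ s, ψ i l) = ∑ i ∈ s, B p k (ψ i) := by
  classical
  induction s using Finset.induction_on with
  | empty => simp [B_zero]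
  | insert i s hi ih =>
    simp only [sum_insert hi]
    rw [B_add, ih]

lemma B_shift (k : ℕ) (ψ : List (ZMod p) → M) :
    B p k (fun l => ψ (l.map (· + 1))) = B p k ψ := by
  induction k generalizing ψ with
  | zero => rfl
  | succ k ih =>
    show B p k (Zo p _) = B p k (Zo p ψ)
    rw [← ih (Zo p ψ)]
    congr 1
    funext l
    unfold Zo
    have h1 := sum_shift (p := p)
      (fun i => ψ ((i : ZMod p) :: ((i + 1 : ℕ) : ZMod p) :: l.map (· + 1))) (by simp)
    rw [← h1]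
    refine sum_congr rfl fun i _ => ?_
    simp

end Chains

section Main

variable (p : ℕ) [NeZero p] (Ψ : List (ZMod p) → L p)

noncomputable def x0 (k i : ℕ) : L p := B p k (fun l => Ψ ((i : ZMod p) :: l))
noncomputable def yy (k : ℕ) : L p := B p k Ψ
noncomputable def x1 (k : ℕ) : L p :=
  B p k (fun l => - ∑ i ∈ range p, (i : ZMod p) • Ψ ((i : ZMod p) :: ((i + 1 : ℕ) : ZMod p) :: l))

variable {Ψ} {N : ℕ} (h0 : Ψ [] = 1) (h1 : ∀ l, Sg p (Ψ l) = del l Ψ)
  (h2 : ∀ l, l.length ≤ N → H p (Ψ l) = Ψ (l.map (· + 1)))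

include h1 in
lemma r1 (k i : ℕ) : Sg p (x0 p Ψ k i) = yy p Ψ k := by
  unfold x0 yy
  have := B_hom (Sg p).toAddMonoidHom k (fun l => Ψ ((i : ZMod p) :: l))
  simp only [LinearMap.toAddMonoidHom_coe] at this
  rw [this]
  simp only [h1, del_cons]
  rw [B_sub, B_del, sub_zero]

include h1 in
lemma r2 (k : ℕ) : Sg p (x1 p Ψ k) = ∑ i ∈ range p, x0 p Ψ k i := by
  unfold x1 x0
  have := B_hom (Sg p).toAddMonoidHom k
    (fun l => - ∑ i ∈ range p, (i : ZMod p) • Ψ ((i : ZMod p) :: ((i + 1 : ℕ) : ZMod p) :: l))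
  simp only [LinearMap.toAddMonoidHom_coe] at this
  rw [this]
  have h3 : ∀ l, Sg p (- ∑ i ∈ range p, (i : ZMod p) •
      Ψ ((i : ZMod p) :: ((i + 1 : ℕ) : ZMod p) :: l)) =
      (∑ i ∈ range p, Ψ ((i : ZMod p) :: l)) +
      del l (fun m => - ∑ i ∈ range p, (i : ZMod p) •
        Ψ ((i : ZMod p) :: ((i + 1 : ℕ) : ZMod p) :: m)) := by
    intro l
    rw [map_neg, map_sum]
    have h4 : ∀ i ∈ range p, Sg p ((i : ZMod p) • Ψ ((i : ZMod p) :: ((i + 1 : ℕ) : ZMod p) :: l)) =
        ((((i + 1 : ℕ) : ZMod p) • Ψ (((i + 1 : ℕ) : ZMod p) :: l) - (i : ZMod p) • Ψ ((i : ZMod p) :: l))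
          - Ψ (((i + 1 : ℕ) : ZMod p) :: l)) +
        del l (fun m => (i : ZMod p) • Ψ ((i : ZMod p) :: ((i + 1 : ℕ) : ZMod p) :: m)) := by
      intro i _
      rw [map_smul, h1, del_cons, del_cons]
      have h5 := del_map_hom (DistribSMul.toAddMonoidHom (L p) (i : ZMod p)) l
        (fun m => Ψ ((i : ZMod p) :: ((i + 1 : ℕ) : ZMod p) :: m))
      simp only [DistribSMul.toAddMonoidHom_apply] at h5
      rw [← h5]
      push_cast
      rw [smul_sub, smul_sub, add_smul, one_smul]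
      abel
    rw [sum_congr rfl h4, sum_add_distrib, sum_sub_distrib, sum_sub_distrib,
      sum_shift (fun i : ℕ => (i : ZMod p) • Ψ ((i : ZMod p) :: l)) (by simp),
      sum_shift (fun i : ℕ => Ψ ((i : ZMod p) :: l)) (by simp), sub_self, zero_sub, ← del_sum]
    have h6 := del_map_hom (negAddMonoidHom (α := L p)) l
      (fun m => ∑ i ∈ range p, (i : ZMod p) • Ψ ((i : ZMod p) :: ((i + 1 : ℕ) : ZMod p) :: m))
    simp only [negAddMonoidHom_apply] at h6
    rw [← h6]
    abel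
  simp only [h3]
  rw [B_add, B_del, add_zero, B_sum]

include h2 in
lemma rH (k i : ℕ) (hk : 2 * k + 2 ≤ N) : H p (x0 p Ψ k i) = x0 p Ψ k (i + 1) := by
  unfold x0
  have := B_hom (H p).toAddMonoidHom k (fun l => Ψ ((i : ZMod p) :: l))
  simp only [LinearMap.toAddMonoidHom_coe] at this
  rw [this]
  rw [B_congr k (φ := fun l => (fun l => Ψ (((i : ZMod p) + 1) :: l)) (l.map (· + 1)))]
  swap
  · intro l hl
    rw [h2 _ (by simp [hl]; omega), List.map_cons]
  rw [B_shift k (fun l => Ψ (((i : ZMod p) + 1) :: l))]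
  push_cast
  rfl

include h2 in
lemma r3 (k : ℕ) (hk : 2 * k + 2 ≤ N) : H p (x1 p Ψ k) = x1 p Ψ k + yy p Ψ (k + 1) := by
  unfold x1 yy
  have := B_hom (H p).toAddMonoidHom k
    (fun l => - ∑ i ∈ range p, (i : ZMod p) • Ψ ((i : ZMod p) :: ((i + 1 : ℕ) : ZMod p) :: l))
  simp only [LinearMap.toAddMonoidHom_coe] at this
  rw [this]
  have h3 : ∀ l, l.length = 2 * k → H p (- ∑ i ∈ range p, (i : ZMod p) •
      Ψ ((i : ZMod p) :: ((i + 1 : ℕ) : ZMod p) :: l)) =
      (fun l => - ∑ i ∈ range p, (i : ZMod p) •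
        Ψ (((i + 1 : ℕ) : ZMod p) :: ((i + 1 + 1 : ℕ) : ZMod p) :: l)) (l.map (· + 1)) := by
    intro l hl
    rw [map_neg, map_sum]
    congr 1
    refine sum_congr rfl fun i _ => ?_
    rw [map_smul, h2 _ (by simp [hl]; omega)]
    simp
  rw [B_congr k h3]
  rw [B_shift k (fun l => - ∑ i ∈ range p, (i : ZMod p) •
        Ψ (((i + 1 : ℕ) : ZMod p) :: ((i + 1 + 1 : ℕ) : ZMod p) :: l))]
  show _ = _ + B p k (Zo p Ψ)
  rw [← B_add]
  congr 1
  funext l
  unfold Zo
  have h4 : ∀ i ∈ range p, (i : ZMod p) •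
        Ψ (((i + 1 : ℕ) : ZMod p) :: ((i + 1 + 1 : ℕ) : ZMod p) :: l) =
      ((i + 1 : ℕ) : ZMod p) • Ψ (((i + 1 : ℕ) : ZMod p) :: ((i + 1 + 1 : ℕ) : ZMod p) :: l) -
        Ψ (((i + 1 : ℕ) : ZMod p) :: ((i + 1 + 1 : ℕ) : ZMod p) :: l) := by
    intro i _
    push_cast
    rw [add_smul, one_smul]; abel
  rw [sum_congr rfl h4, sum_sub_distrib,
    sum_shift (fun i : ℕ => (i : ZMod p) • Ψ ((i : ZMod p) :: ((i + 1 : ℕ) : ZMod p) :: l))
      (by simp),
    sum_shift (fun i : ℕ => Ψ ((i : ZMod p) :: ((i + 1 : ℕ) : ZMod p) :: l)) (by simp)]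
  abel

lemma H_pow_C (j n : ℕ) : H p ^ j * C p n = C p (n + j) * H p ^ j := by
  induction j with
  | zero => simp
  | succ j ih =>
    rw [pow_succ', mul_assoc, ih, ← mul_assoc, H_C, mul_assoc, add_assoc]

lemma H_S (n : ℕ) : H p * S (C p) n = S (sh (C p) 1) n * H p := by
  unfold S sh
  rw [mul_sum, sum_mul]
  exact sum_congr rfl fun i _ => H_C p i

lemma H_S' (c : ℕ → Module.End (ZMod p) (L p)) (hc : ∀ n, H p * c n = c (n + 1) * H p) (n : ℕ) :
    H p * S c n = S (sh c 1) n * H p := by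
  unfold S sh
  rw [mul_sum, sum_mul]
  exact sum_congr rfl fun i _ => hc i

lemma H_W' (c : ℕ → Module.End (ZMod p) (L p)) (hc : ∀ n, H p * c n = c (n + 1) * H p) :
    H p * W p c = W p (sh c 1) * H p := by
  unfold W
  rw [mul_sum, sum_mul]
  refine sum_congr rfl fun i _ => ?_
  rw [← mul_assoc, H_S' p c hc, mul_assoc, hc, ← mul_assoc]
  rfl

lemma H_W (j : ℕ) : H p * W p (sh (C p) j) = W p (sh (C p) (j + 1)) * H p := by
  have h1 : sh (C p) (j + 1) = sh (sh (C p) j) 1 := by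
    funext n; unfold sh; congr 1; ring
  rw [h1]
  apply H_W'
  intro n
  show H p * C p (n + j) = C p (n + 1 + j) * H p
  rw [H_C]
  congr 2
  ring

lemma H_pow_W (j n : ℕ) : H p ^ j * W p (sh (C p) n) = W p (sh (C p) (n + j)) * H p ^ j := by
  induction j with
  | zero => simp
  | succ j ih =>
    rw [pow_succ', mul_assoc, ih, ← mul_assoc, H_W, mul_assoc, add_assoc]

lemma conj_pow {A : Type*} [Ring A] {g a b : A} (h : g * a = b * g) (k : ℕ) :
    g * a ^ k = b ^ k * g := by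
  induction k with
  | zero => simp
  | succ k ih => rw [pow_succ, ← mul_assoc, ih, mul_assoc, h, ← mul_assoc, ← pow_succ]

lemma ev_H_pow (j : ℕ) (x : L p) : ev p ((H p ^ j) x) = ev p x := by
  induction j with
  | zero => simp
  | succ j ih =>
    rw [pow_succ', Module.End.mul_apply, ev_H, ih]

lemma sh_p : sh (C p) p = C p := by
  funext n
  exact (antiC p).per n

include h2 in
lemma x0_eq (k i : ℕ) (hk : 2 * k + 2 ≤ N) : x0 p Ψ k i = (H p ^ i) (x0 p Ψ k 0) := by
  induction i with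
  | zero => simp
  | succ i ih => rw [pow_succ', Module.End.mul_apply, ← ih, rH p h2 k i hk]

/-- the numbers `a k` -/
noncomputable def aa (Ψ : List (ZMod p) → L p) (k : ℕ) : ZMod p :=
  ev p ((W p (C p) ^ k) (yy p Ψ k))

include h1 h2 in
lemma E1 (k : ℕ) (hk : 2 * k + 2 ≤ N) : ev p ((C p 0 * W p (C p) ^ k) (∑ j ∈ range p, x0 p Ψ k j)) =
    (2 * k + 1 : ℕ) • aa p Ψ k := by
  have hA := antiC p
  set x := x0 p Ψ k 0 with hx
  have e1 : ∀ j ∈ range p, ev p ((C p 0 * W p (C p) ^ k) (x0 p Ψ k j)) =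
      ev p ((C p (p - j) * W p (sh (C p) (p - j)) ^ k) x) := by
    intro j hj
    have hj' : p - j + j = p := Nat.sub_add_cancel (mem_range.mp hj).le
    have e2 : H p ^ j * (C p (p - j) * W p (sh (C p) (p - j)) ^ k) =
        C p 0 * W p (C p) ^ k * H p ^ j := by
      rw [← mul_assoc, H_pow_C, hj', mul_assoc, conj_pow (H_pow_W p j (p - j)), hj', sh_p,
        ← mul_assoc]
      congr 2
      have := hA.per 0
      rwa [zero_add] at this
    rw [x0_eq p h2 k j hk, ← Module.End.mul_apply, ← e2, Module.End.mul_apply, ev_H_pow]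
  rw [map_sum, map_sum, sum_congr rfl e1]
  have e3 : ∑ j ∈ range p, ev p ((C p (p - j) * W p (sh (C p) (p - j)) ^ k) x) =
      ∑ i ∈ range p, ev p ((C p i * W p (sh (C p) i) ^ k) x) := by
    rw [← sum_range_reflect]
    rw [← sum_shift (p := p) (fun i => ev p ((C p i * W p (sh (C p) i) ^ k) x))]
    · refine sum_congr rfl fun i hi => ?_
      have : p - (p - 1 - i) = i + 1 := by
        have := mem_range.mp hi
        omega
      rw [this]
    · have e4 : C p p = C p 0 := by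
        have := hA.per 0
        rwa [zero_add] at this
      simp only [sh_p, e4]
      rfl
  rw [e3, ← map_sum, ← LinearMap.sum_apply, hA.key1 k]
  have e5 : ((2 * k + 1) • (S (C p) p * W p (C p) ^ k)) x =
      (2 * k + 1) • ((W p (C p) ^ k) (yy p Ψ k)) := by
    rw [LinearMap.smul_apply, ((hA.commute_S_W p).pow_right k).eq, Module.End.mul_apply]
    congr 2
    exact r1 p h1 k 0
  rw [e5, map_nsmul]
  rfl

include h1 h2 in
lemma E2 (k : ℕ) (hk : 2 * k + 2 ≤ N) : (2 * k + 1 : ℕ) • aa p Ψ k =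
    ev p ((C p (p - 1) * (S (C p) p * W p (C p) ^ k)) (x1 p Ψ k)) := by
  have hA := antiC p
  rw [← E1 p h1 h2 k hk]
  have hp : p - 1 + 1 = p := Nat.sub_add_cancel (Nat.pos_of_ne_zero (NeZero.ne p))
  have hHS : H p * S (C p) p = S (C p) p * H p := by
    rw [H_S, hA.S_sh_p]
  have e1 : ∑ j ∈ range p, x0 p Ψ k j = S (C p) p (H p (x1 p Ψ k)) := by
    have e2 : S (C p) p (H p (x1 p Ψ k)) = H p (Sg p (x1 p Ψ k)) := by
      rw [← Module.End.mul_apply, ← hHS]; rfl
    rw [e2, r2 p h1, map_sum]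
    simp only [rH p h2 k _ hk]
    symm
    apply sum_shift
    unfold x0
    simp
  rw [e1, ← Module.End.mul_apply, ← Module.End.mul_apply]
  have e3 : C p 0 * W p (C p) ^ k * S (C p) p * H p =
      H p * (C p (p - 1) * (S (C p) p * W p (C p) ^ k)) := by
    have e4 : H p * C p (p - 1) = C p 0 * H p := by
      rw [H_C, hp]
      congr 1
      have := hA.per 0
      rwa [zero_add] at this
    have e5 : H p * W p (sh (C p) (p - 1)) ^ k = W p (C p) ^ k * H p := by
      rw [conj_pow (H_W p (p - 1)), hp, sh_p]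
    rw [← hA.key2 k (p - 1)]
    rw [← mul_assoc (H p), e4, mul_assoc (C p 0) (H p), ← mul_assoc (H p), hHS,
      mul_assoc (S (C p) p), e5, mul_assoc (C p 0), ← ((hA.commute_S_W p).pow_right k).eq]
    simp only [mul_assoc]
  rw [e3, Module.End.mul_apply, ev_H]

include h1 h2 in
lemma E3 (k : ℕ) (hk : 2 * k + 2 ≤ N) : aa p Ψ (k + 1) = ((2 * (k + 1)) * (2 * k + 1) : ℕ) • aa p Ψ k := by
  have hA := antiC p
  have hp : p - 1 + 1 = p := Nat.sub_add_cancel (Nat.pos_of_ne_zero (NeZero.ne p))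
  have e1 : yy p Ψ (k + 1) = H p (x1 p Ψ k) - x1 p Ψ k := by
    rw [r3 p h2 k hk]; abel
  unfold aa
  rw [e1, map_sub, map_sub]
  have e5 : W p (C p) ^ (k + 1) * H p = H p * W p (sh (C p) (p - 1)) ^ (k + 1) := by
    rw [conj_pow (H_W p (p - 1)), hp, sh_p]
  have e6 : W p (C p) = W p (sh (C p) (p - 1)) + 2 • (S (C p) p * C p (p - 1)) := by
    have e7 := (hA.sh (p - 1)).W_sh_one
    have e8 : sh (sh (C p) (p - 1)) 1 = C p := by
      have : sh (sh (C p) (p - 1)) 1 = sh (C p) p := by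
        funext n; unfold sh; congr 1; omega
      rw [this, sh_p]
    rw [e8, hA.S_sh_p] at e7
    rw [e7]
    congr 3
    unfold sh; rw [zero_add]
  have e9 := hA.key3 (p - 1) k _ e6
  rw [← Module.End.mul_apply, e5, Module.End.mul_apply, ev_H, e9, LinearMap.add_apply, map_add,
    add_sub_cancel_left, LinearMap.smul_apply, map_nsmul, ← E2 p h1 h2 k hk, smul_smul]
  rfl

include h0 h1 h2 in
lemma aa_eq (k : ℕ) (hk : 2 * k ≤ N) : aa p Ψ k = ((2 * k).factorial : ZMod p) := by
  induction k with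
  | zero =>
    unfold aa yy
    show ev p (((W p (C p)) ^ 0) (Ψ [])) = _
    rw [h0]
    simp
  | succ k ih =>
    rw [E3 p h1 h2 k (by omega), ih (by omega)]
    have : (2 * (k + 1)).factorial = (2 * (k + 1) * (2 * k + 1)) * (2 * k).factorial := by
      rw [show 2 * (k + 1) = 2 * k + 1 + 1 by ring, Nat.factorial_succ, Nat.factorial_succ]
      ring
    rw [this]
    simp

include h0 h1 h2 in
/-- The degree is a unit mod `p`. -/
theorem yy_ne_zero (hp : p.Prime) (k : ℕ) (hk : 2 * k < p) (hN : 2 * k ≤ N) :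
    yy p Ψ k ≠ 0 := by
  intro hcon
  have h3 := aa_eq p h0 h1 h2 k hN
  unfold aa at h3
  rw [hcon, map_zero, map_zero] at h3
  have h4 : ((2 * k).factorial : ZMod p) = 0 := h3.symm
  rw [ZMod.natCast_eq_zero_iff] at h4
  have := (hp.dvd_factorial).mp h4
  omega

/-- If the pairing with the `k`-th power is non-zero, some list of length `2 k` has non-zero
value. -/
lemma exists_of_B_ne_zero {M : Type*} [AddCommGroup M] (k : ℕ) (ψ : List (ZMod p) → M)
    (h : B p k ψ ≠ 0) : ∃ l : List (ZMod p), l.length = 2 * k ∧ ψ l ≠ 0 := by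
  induction k generalizing ψ with
  | zero => exact ⟨[], rfl, h⟩
  | succ k ih =>
    obtain ⟨l, h3, h4⟩ := ih _ h
    unfold Zo at h4
    obtain ⟨i, _, h5⟩ := exists_ne_zero_of_sum_ne_zero h4
    exact ⟨_, by simp [h3]; ring, h5⟩

end Main

end H317F
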