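import Mathlib
import Pool.Agent.H317F.Pair

/-! A `ℤ/p` Lusternik–Schnirelmann theorem. -/

set_option linter.unusedSectionVars false

namespace H317F

open Finset unitInterval

/-- periodic sequences with values in `[0,1]` -/
abbrev PP (p : ℕ) := ZMod p → I

/-- rotation -/
def rot {p : ℕ} (j : ZMod p) (x : PP p) : PP p := fun i => x (i + j)

@[simp] lemma rot_apply {p : ℕ} (j i : ZMod p) (x : PP p) : rot j x i = x (i + j) := rfl

lemma rot_rot {p : ℕ} (i j : ZMod p) (x : PP p) : rot i (rot j x) = rot (i + j) x := by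
  funext k; simp [add_assoc]

@[simp] lemma rot_zero {p : ℕ} (x : PP p) : rot 0 x = x := by funext k; simp

/-- the set of sequences taking both values `0` and `1` -/
def OO (p : ℕ) : Set (PP p) := {x | (∃ j, x j = 1) ∧ ∃ j, x j = 0}

lemma rot_mem_OO {p : ℕ} {x : PP p} (hx : x ∈ OO p) (j : ZMod p) : rot j x ∈ OO p := by
  obtain ⟨⟨a, ha⟩, ⟨b, hb⟩⟩ := hx
  exact ⟨⟨a - j, by simp [ha]⟩, ⟨b - j, by simp [hb]⟩⟩

/-- `A` admits an equivariant cover of multiplicity at most `m` at some positive scale. -/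
def Thin (p m : ℕ) [NeZero p] (A : Set (PP p)) : Prop :=
  ∃ F : Set (PP p), ∃ δ : ℝ, 0 < δ ∧ (∀ x ∈ A, ∃ j, rot j x ∈ F) ∧
    ∀ S ⊆ A, (∀ x ∈ S, ∀ y ∈ S, dist x y < δ) → {j | ∃ x ∈ S, rot j x ∈ F}.ncard ≤ m

lemma rot_injective {p : ℕ} [hp : Fact p.Prime] {x : PP p} (hx : x ∈ OO p) {i j : ZMod p}
    (h : rot i x = rot j x) : i = j := by
  by_contra hne
  have hsub : i - j ≠ 0 := sub_ne_zero.mpr hne
  have h1 : ∀ k, x (k + (i - j)) = x k := by
    intro k
    have := congrFun h (k - j)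
    simp only [rot_apply] at this
    rw [show k - j + i = k + (i - j) by ring, show k - j + j = k by ring] at this
    exact this
  have h2 : ∀ (n : ℕ) k, x (k + n * (i - j)) = x k := by
    intro n
    induction n with
    | zero => intro k; simp
    | succ n ih =>
      intro k
      rw [show k + ((n + 1 : ℕ) : ZMod p) * (i - j) = (k + n * (i - j)) + (i - j) by
        push_cast; ring, h1, ih]
  have h3 : ∀ k l, x k = x l := by
    intro k l
    have h4 := h2 ((k - l) / (i - j)).val l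
    rw [ZMod.natCast_zmod_val, div_mul_cancel₀ _ hsub, add_sub_cancel] at h4
    exact h4
  obtain ⟨⟨a, ha⟩, ⟨b, hb⟩⟩ := hx
  have := h3 a b
  rw [ha, hb] at this
  exact one_ne_zero this

open Classical in
/-- choice function on sets -/
noncomputable def pick {p : ℕ} (s : Set (PP p)) : PP p :=
  if h : s.Nonempty then h.some else fun _ => 0

lemma pick_mem {p : ℕ} {s : Set (PP p)} (h : s.Nonempty) : pick s ∈ s := by
  unfold pick; rw [dif_pos h]; exact h.some_mem

/-- existence of equivariant labels -/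
lemma exists_label {p : ℕ} [hp : Fact p.Prime] (F : Set (PP p))
    (hF : ∀ x ∈ OO p, ∃ j, rot j x ∈ F) :
    ∃ lam : PP p → ZMod p, (∀ x ∈ OO p, rot (lam x) x ∈ F) ∧
      ∀ x ∈ OO p, lam (rot (-1) x) = lam x + 1 := by
  classical
  let Q : PP p → Set (PP p) := fun x => {y | y ∈ F ∧ ∃ j, rot j x = y}
  have hQ : ∀ x i, Q (rot i x) = Q x := by
    intro x i
    ext y
    constructor
    · rintro ⟨h1, j, h2⟩
      exact ⟨h1, j + i, by rw [← rot_rot]; exact h2⟩
    · rintro ⟨h1, j, h2⟩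
      exact ⟨h1, j - i, by rw [rot_rot, sub_add_cancel]; exact h2⟩
  have hne : ∀ x ∈ OO p, (Q x).Nonempty := by
    intro x hx
    obtain ⟨j, hj⟩ := hF x hx
    exact ⟨_, hj, j, rfl⟩
  have h3 : ∀ x ∈ OO p, ∃ j, rot j x = pick (Q x) := fun x hx => (pick_mem (hne x hx)).2
  let lam : PP p → ZMod p := fun x => if h : ∃ j, rot j x = pick (Q x) then h.choose else 0
  have h4 : ∀ x ∈ OO p, rot (lam x) x = pick (Q x) := by
    intro x hx
    have : lam x = (h3 x hx).choose := dif_pos (h3 x hx)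
    rw [this]
    exact (h3 x hx).choose_spec
  refine ⟨lam, ?_, ?_⟩
  · intro x hx
    rw [h4 x hx]
    exact (pick_mem (hne x hx)).1
  · intro x hx
    have h5 := h4 _ (rot_mem_OO hx (-1))
    rw [hQ, ← h4 x hx, rot_rot] at h5
    have := rot_injective hx h5
    rw [← this]; ring

/-- the Euclidean domain -/
def Dom (p : ℕ) : Set (ZMod p → ℝ) := {x | (∀ i, 0 ≤ x i) ∧ (∃ i, (1 : ℝ) / p ≤ x i) ∧ ∃ i, x i = 0}

/-- truncation -/
noncomputable def nu (p : ℕ) (x : ZMod p → ℝ) : PP p :=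
  fun i => Set.projIcc 0 1 zero_le_one (p * x i)

/-- shift on the Euclidean space -/
def TE (p : ℕ) : (ZMod p → ℝ) →ₗ[ℝ] (ZMod p → ℝ) := LinearMap.funLeft ℝ ℝ (fun i => i - 1)

lemma nu_mem {p : ℕ} [NeZero p] {x : ZMod p → ℝ} (hx : x ∈ Dom p) : nu p x ∈ OO p := by
  obtain ⟨h1, ⟨i, hi⟩, ⟨j, hj⟩⟩ := hx
  refine ⟨⟨i, ?_⟩, ⟨j, ?_⟩⟩
  · have h2 : (1 : ℝ) ≤ p * x i := by
      have hp : (0 : ℝ) < p := by
        have := Nat.pos_of_ne_zero (NeZero.ne p)
        exact_mod_cast this
      calc (1 : ℝ) = p * (1 / p) := by field_simp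
        _ ≤ p * x i := by gcongr
    unfold nu
    rw [Set.projIcc_of_right_le _ h2]
    rfl
  · unfold nu
    rw [hj, mul_zero, Set.projIcc_of_le_left _ le_rfl]
    rfl

lemma nu_TE {p : ℕ} (x : ZMod p → ℝ) : nu p (TE p x) = rot (-1) (nu p x) := by
  funext i
  simp [nu, TE, LinearMap.funLeft_apply, rot, sub_eq_add_neg]

lemma dist_nu {p : ℕ} [NeZero p] (x y : ZMod p → ℝ) : dist (nu p x) (nu p y) ≤ p * dist x y := by
  have hp : (0 : ℝ) ≤ p := Nat.cast_nonneg p
  rw [dist_pi_le_iff (by positivity)]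
  intro i
  have h1 : dist (nu p x i) (nu p y i) ≤ |(p : ℝ) * x i - p * y i| := by
    rw [Subtype.dist_eq, Real.dist_eq]
    exact Set.abs_projIcc_sub_projIcc _
  refine h1.trans ?_
  rw [← mul_sub, abs_mul, abs_of_nonneg hp, ← Real.dist_eq]
  gcongr
  exact dist_le_pi_dist x y i

/-- vertices -/
def vv (p : ℕ) (j : ZMod p) : ZMod p → ℝ := Pi.single j 1

lemma TE_vv (p : ℕ) (j : ZMod p) : TE p (vv p j) = vv p (j + 1) := by
  funext i
  simp only [TE, LinearMap.funLeft_apply, vv, Pi.single_apply]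
  congr 1
  apply propext
  constructor
  · intro h; rw [← h]; ring
  · intro h; rw [h]; ring

lemma hull_subset_Dom {p : ℕ} [NeZero p] {l : List (ZMod p)} (hl : l.length < p)
    {x : ZMod p → ℝ} (hx : x ∈ convexHull ℝ {y | y ∈ l.map (vv p)}) : x ∈ Dom p := by
  obtain ⟨j, hj⟩ : ∃ j : ZMod p, j ∉ l := by
    by_contra hcon
    push Not at hcon
    have h1 : (Finset.univ : Finset (ZMod p)) ⊆ l.toFinset := by
      intro j _; simpa using hcon j
    have h2 := Finset.card_le_card h1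
    rw [Finset.card_univ, ZMod.card] at h2
    have h3 := l.toFinset_card_le
    omega
  let s : Set (ZMod p → ℝ) := {y | (∀ i, 0 ≤ y i) ∧ ∑ i, y i = 1 ∧ y j = 0}
  have hs : Convex ℝ s := by
    intro a ha b hb u v hu hv huv
    refine ⟨fun i => ?_, ?_, ?_⟩
    · have h1 := ha.1 i
      have h2 := hb.1 i
      simp only [Pi.add_apply, Pi.smul_apply, smul_eq_mul]
      positivity
    · simp only [Pi.add_apply, Pi.smul_apply, smul_eq_mul]
      rw [Finset.sum_add_distrib, ← Finset.mul_sum, ← Finset.mul_sum, ha.2.1, hb.2.1, mul_one,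
        mul_one, huv]
    · simp only [Pi.add_apply, Pi.smul_apply, smul_eq_mul]
      rw [ha.2.2, hb.2.2]; simp
  have hsub : {y | y ∈ l.map (vv p)} ⊆ s := by
    intro y hy
    obtain ⟨k, hk, rfl⟩ := List.mem_map.mp hy
    refine ⟨fun i => ?_, ?_, ?_⟩
    · simp only [vv, Pi.single_apply]; split_ifs <;> norm_num
    · simp [vv]
    · have : j ≠ k := by rintro rfl; exact hj hk
      simp [vv, this]
  have hxs : x ∈ s := convexHull_min hsub hs hx
  refine ⟨hxs.1, ?_, ⟨j, hxs.2.2⟩⟩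
  by_contra hcon
  push Not at hcon
  have hp : (0 : ℝ) < p := by
    have := Nat.pos_of_ne_zero (NeZero.ne p)
    exact_mod_cast this
  have h1 : ∑ i, x i < ∑ _i : ZMod p, (1 : ℝ) / p :=
    Finset.sum_lt_sum_of_nonempty Finset.univ_nonempty fun i _ => hcon i
  rw [hxs.2.1] at h1
  simp only [Finset.sum_const, Finset.card_univ, ZMod.card, nsmul_eq_mul] at h1
  have : (p : ℝ) * (1 / p) = 1 := by field_simp
  rw [this] at h1
  exact lt_irrefl _ h1

lemma SdI_sub {E M : Type*} [NormedAddCommGroup E] [NormedSpace ℝ E] [AddCommGroup M] (r : ℕ)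
    (ψ φ : List E → M) (l : List E) :
    SdI r (fun m => ψ m - φ m) l = SdI r ψ l - SdI r φ l := by
  induction r generalizing l with
  | zero => rfl
  | succ r ih =>
    rw [SdI_succ, SdI_succ, SdI_succ]
    have : SdI r (fun m => ψ m - φ m) = fun m => SdI r ψ m - SdI r φ m := by
      funext m; exact ih m
    rw [this]
    exact sd_sub _ _ _ _ _

lemma small_vv {p : ℕ} [NeZero p] (l : List (ZMod p)) : Small 1 (l.map (vv p)) := by
  intro x hx y hy
  obtain ⟨i, _, rfl⟩ := List.mem_map.mp hx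
  obtain ⟨j, _, rfl⟩ := List.mem_map.mp hy
  rw [dist_pi_le_iff zero_le_one]
  intro k
  simp only [vv, Pi.single_apply, Real.dist_eq]
  split_ifs <;> norm_num

/-- **`ℤ/p` Lusternik–Schnirelmann**: `OO p` is not `m`-thin for `m < p - 1`. -/
theorem not_thin_OO (p : ℕ) [hp : Fact p.Prime] (hodd : p ≠ 2) (m : ℕ) (hm : m < p - 1) :
    ¬ Thin p m (OO p) := by
  rintro ⟨F, δ, hδ, hF, hS⟩
  obtain ⟨lam, hlam1, hlam2⟩ := exists_label F hF
  have hp3 : 3 ≤ p := by
    have := hp.out.two_le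
    omega
  have hpos : (0 : ℝ) < p := by positivity
  obtain ⟨K, hK⟩ : ∃ K, p - 1 = 2 * K := by
    have := hp.out.eq_two_or_odd'
    rcases this with h | ⟨k, hk⟩
    · exact absurd h hodd
    · exact ⟨k, by omega⟩
  -- choose the number of subdivisions
  obtain ⟨r, hr⟩ : ∃ r : ℕ, ((p : ℝ) / (p + 1)) ^ r < δ / p := by
    apply exists_pow_lt_of_lt_one (by positivity)
    rw [div_lt_one (by positivity)]
    linarith
  let ψ : List (ZMod p → ℝ) → L p := P p (fun x => lam (nu p x))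
  let Ψ : List (ZMod p) → L p := fun l => SdI r ψ (l.map (vv p))
  have h0 : Ψ [] = 1 := by
    show SdI r ψ [] = 1
    rw [SdI_nil]; exact P_nil p _
  have h1 : ∀ l, Sg p (Ψ l) = del l Ψ := by
    intro l
    show Sg p (SdI r ψ (l.map (vv p))) = _
    have h2 := SdI_map_hom (Sg p).toAddMonoidHom r ψ (l.map (vv p))
    simp only [LinearMap.toAddMonoidHom_coe] at h2
    rw [h2]
    have h3 : (fun m => Sg p (ψ m)) = fun m => del m ψ := by
      funext m; exact Sg_P p _ m
    rw [h3, SdI_del, del_map]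
  have h2 : ∀ l : List (ZMod p), l.length ≤ p - 1 → H p (Ψ l) = Ψ (l.map (· + 1)) := by
    intro l hl
    show H p (SdI r ψ (l.map (vv p))) = SdI r ψ ((l.map (· + 1)).map (vv p))
    have h3 := SdI_map_hom (H p).toAddMonoidHom r ψ (l.map (vv p))
    simp only [LinearMap.toAddMonoidHom_coe] at h3
    rw [h3]
    have h4 : (l.map (· + 1)).map (vv p) = (l.map (vv p)).map (TE p) := by
      rw [List.map_map, List.map_map]
      congr 1
      funext j
      exact (TE_vv p j).symm
    rw [h4, SdI_natural _ (bary_map_linear (TE p))]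
    by_contra hcon
    have h5 : SdI r (fun m => H p (ψ m) - ψ (m.map (TE p))) (l.map (vv p)) ≠ 0 := by
      rw [SdI_sub]
      exact sub_ne_zero.mpr hcon
    obtain ⟨m', h6, h7, h8, h9⟩ := exists_of_SdI_ne_zero (N := p) (D := 1) r
      (by rw [List.length_map]; omega) (small_vv l) h5
    apply h7
    rw [sub_eq_zero]
    have h10 : ∀ x ∈ m', x ∈ Dom p := fun x hx => hull_subset_Dom (by omega) (h8 x hx)
    show h p (P p (fun x => lam (nu p x)) m') = P p (fun x => lam (nu p x)) (m'.map (TE p))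
    have h11 : P p (fun x => lam (nu p x)) (m'.map (TE p)) =
        P p (fun x => lam (nu p (TE p x))) m' := by
      unfold P; rw [List.map_map]; rfl
    rw [h11]
    apply h_P
    intro x hx
    rw [nu_TE]
    exact hlam2 _ (nu_mem (h10 x hx))
  have h3 := yy_ne_zero p h0 h1 h2 hp.out K (by omega) (by omega)
  obtain ⟨l, hl, h4⟩ := exists_of_B_ne_zero p K Ψ h3
  obtain ⟨m', h6, h7, h8, h9⟩ := exists_of_SdI_ne_zero (N := p) (D := 1) r
      (by rw [List.length_map]; omega) (small_vv l) h4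
  have h10 : ∀ x ∈ m', x ∈ Dom p := fun x hx => hull_subset_Dom (by omega) (h8 x hx)
  have h11 : (m'.map fun x => lam (nu p x)).Nodup := P_ne_zero p _ m' h7
  let T : Set (PP p) := {y | ∃ x ∈ m', y = nu p x}
  have h12 := hS T (by rintro y ⟨x, hx, rfl⟩; exact nu_mem (h10 x hx)) (by
    rintro y ⟨x, hx, rfl⟩ y' ⟨x', hx', rfl⟩
    have h13 := h9 x hx x' hx'
    rw [one_mul] at h13
    calc dist (nu p x) (nu p x') ≤ p * dist x x' := dist_nu x x'
      _ ≤ p * ((p : ℝ) / (p + 1)) ^ r := by gcongr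
      _ < p * (δ / p) := by gcongr
      _ = δ := by field_simp)
  have h14 : (((m'.map fun x => lam (nu p x)).toFinset : Finset (ZMod p)) : Set (ZMod p)) ⊆
      {j | ∃ x ∈ T, rot j x ∈ F} := by
    intro j hj
    rw [Finset.mem_coe, List.mem_toFinset, List.mem_map] at hj
    obtain ⟨x, hx, rfl⟩ := hj
    exact ⟨nu p x, ⟨x, hx, rfl⟩, hlam1 _ (nu_mem (h10 x hx))⟩
  have h15 := Set.ncard_le_ncard h14 (Set.toFinite _)
  rw [Set.ncard_coe_finset, List.toFinset_card_of_nodup h11, List.length_map, h6,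
    List.length_map, hl] at h15
  omega

end H317F
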