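import Mathlib

/-! Topological groupoids, amenability, transformation groupoids. -/

namespace H317F

open Topology

/-- A topological groupoid with unit space `X` and space of arrows `G`. The product `mul g h` is
only meaningful when `s g = r h`. (The map `unit` is automatically an embedding, with continuous
left inverse `s`, so `X` is the unit space with its subspace topology.) -/
structure TopGpd (X G : Type) [TopologicalSpace X] [TopologicalSpace G] where
  /-- source -/
  s : G → X
  /-- range -/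
  r : G → X
  /-- units -/
  unit : X → G
  /-- product -/
  mul : G → G → G
  /-- inverse -/
  inv : G → G
  s_unit : ∀ x, s (unit x) = x
  r_unit : ∀ x, r (unit x) = x
  s_mul : ∀ g h, s g = r h → s (mul g h) = s h
  r_mul : ∀ g h, s g = r h → r (mul g h) = r g
  mul_assoc : ∀ g h k, s g = r h → s h = r k → mul (mul g h) k = mul g (mul h k)
  mul_unit : ∀ g, mul g (unit (s g)) = g
  unit_mul : ∀ g, mul (unit (r g)) g = g
  s_inv : ∀ g, s (inv g) = r g
  r_inv : ∀ g, r (inv g) = s g
  mul_inv : ∀ g, mul g (inv g) = unit (r g)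
  inv_mul : ∀ g, mul (inv g) g = unit (s g)
  continuous_s : Continuous s
  continuous_r : Continuous r
  continuous_unit : Continuous unit
  continuous_inv : Continuous inv
  continuous_mul : ContinuousOn (fun q : G × G => mul q.1 q.2) {q | s q.1 = r q.2}

namespace TopGpd

variable {X G : Type} [TopologicalSpace X] [TopologicalSpace G] (𝒢 : TopGpd X G)

/-- étale: source and range are local homeomorphisms -/
def Etale : Prop := IsLocalHomeomorph 𝒢.s ∧ IsLocalHomeomorph 𝒢.r

/-- principal: all isotropy groups are trivial -/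
def Principal : Prop := ∀ g, 𝒢.r g = 𝒢.s g → g = 𝒢.unit (𝒢.s g)

/-- subgroupoids -/
structure IsSubgpd (H : Set G) : Prop where
  mul_mem : ∀ g ∈ H, ∀ h ∈ H, 𝒢.s g = 𝒢.r h → 𝒢.mul g h ∈ H
  inv_mem : ∀ g ∈ H, 𝒢.inv g ∈ H

/-- open subgroupoids -/
def IsOpenSubgpd (H : Set G) : Prop := IsOpen H ∧ 𝒢.IsSubgpd H

/-- the subgroupoid generated by a set of arrows -/
def gen (A : Set G) : Set G := ⋂₀ {H | 𝒢.IsSubgpd H ∧ A ⊆ H}

/-- the unit space of a subgroupoid -/
def units (H : Set G) : Set X := {x | 𝒢.unit x ∈ H}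

/-- Topological amenability: there is a net `ξ i` of continuous compactly supported functions
`G → [0, ∞)` with `∑_{h ∈ G^x} ξ i h = 1` for all units `x` and
`∑_{h ∈ G^{s g}} |ξ i (g h) - ξ i h| → 0` uniformly for `g` in compact subsets of `G`. -/
def Amenable : Prop :=
  ∃ (ι : Type) (_ : Preorder ι) (_ : IsDirectedOrder ι) (_ : Nonempty ι) (ξ : ι → G → ℝ),
    (∀ i, Continuous (ξ i)) ∧ (∀ i, HasCompactSupport (ξ i)) ∧ (∀ i g, 0 ≤ ξ i g) ∧
    (∀ i x, HasSum (fun h : {h : G // 𝒢.r h = x} => ξ i h) 1) ∧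
    ∀ K : Set G, IsCompact K → ∀ ε > 0, ∃ i₀, ∀ i ≥ i₀, ∀ g ∈ K, ∃ t < ε,
      HasSum (fun h : {h : G // 𝒢.r h = 𝒢.s g} => |ξ i (𝒢.mul g h) - ξ i h|) t

variable {𝒢}

lemma gen_isSubgpd (A : Set G) : 𝒢.IsSubgpd (𝒢.gen A) where
  mul_mem g hg h hh hgh := by
    rintro H ⟨h1, h2⟩
    exact h1.mul_mem g (hg H ⟨h1, h2⟩) h (hh H ⟨h1, h2⟩) hgh
  inv_mem g hg := by
    rintro H ⟨h1, h2⟩
    exact h1.inv_mem g (hg H ⟨h1, h2⟩)

lemma subset_gen (A : Set G) : A ⊆ 𝒢.gen A := fun _ hg _ h => h.2 hg

lemma gen_mono {A B : Set G} (h : A ⊆ B) : 𝒢.gen A ⊆ 𝒢.gen B :=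
  fun _ hg H hH => hg H ⟨hH.1, h.trans hH.2⟩

end TopGpd

section Trans

variable (Γ X : Type) [Group Γ] [TopologicalSpace Γ] [DiscreteTopology Γ] [TopologicalSpace X]
  [MulAction Γ X] [ContinuousConstSMul Γ X]

/-- The transformation groupoid `Γ ⋉ X`: arrows `(γ, x)` with source `x` and range `γ • x`. -/
def transGpd : TopGpd X (Γ × X) where
  s g := g.2
  r g := g.1 • g.2
  unit x := (1, x)
  mul g h := (g.1 * h.1, h.2)
  inv g := (g.1⁻¹, g.1 • g.2)
  s_unit x := rfl
  r_unit x := one_smul Γ x
  s_mul g h _ := rfl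
  r_mul g h hgh := by
    show (g.1 * h.1) • h.2 = g.1 • g.2
    rw [hgh, mul_smul]
  mul_assoc g h k _ _ := by
    show (g.1 * h.1 * k.1, k.2) = (g.1 * (h.1 * k.1), k.2)
    rw [mul_assoc]
  mul_unit g := by
    show (g.1 * 1, g.2) = g
    rw [mul_one]
  unit_mul g := by
    show (1 * g.1, g.2) = g
    rw [one_mul]
  s_inv g := rfl
  r_inv g := by
    show g.1⁻¹ • g.1 • g.2 = g.2
    rw [inv_smul_smul]
  mul_inv g := by
    show (g.1 * g.1⁻¹, g.1 • g.2) = (1, g.1 • g.2)
    rw [mul_inv_cancel]
  inv_mul g := by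
    show (g.1⁻¹ * g.1, g.2) = (1, g.2)
    rw [inv_mul_cancel]
  continuous_s := continuous_snd
  continuous_r := by
    rw [continuous_prod_of_discrete_left]
    exact fun a => continuous_const_smul a
  continuous_unit := by fun_prop
  continuous_inv := by
    apply Continuous.prodMk
    · exact (continuous_of_discreteTopology (f := fun a : Γ => a⁻¹)).comp continuous_fst
    · rw [continuous_prod_of_discrete_left]
      exact fun a => continuous_const_smul a
  continuous_mul := by
    apply Continuous.continuousOn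
    apply Continuous.prodMk
    · exact (continuous_of_discreteTopology (f := fun a : Γ × Γ => a.1 * a.2)).comp
        ((continuous_fst.comp continuous_fst).prodMk (continuous_fst.comp continuous_snd))
    · exact continuous_snd.comp continuous_snd

set_option linter.unusedSectionVars false in
lemma localHomeo_of_family (φ : Γ → X ≃ₜ X) :
    IsLocalHomeomorph (fun g : Γ × X => φ g.1 g.2) := by
  rintro ⟨a, x⟩
  have hc : Continuous (fun g : Γ × X => φ g.1 g.2) := by
    rw [continuous_prod_of_discrete_left]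
    exact fun a => (φ a).continuous
  refine ⟨{ toFun := fun g => φ g.1 g.2
            invFun := fun y => (a, (φ a).symm y)
            source := {g | g.1 = a}
            target := Set.univ
            map_source' := fun _ _ => Set.mem_univ _
            map_target' := fun _ _ => rfl
            left_inv' := by
              rintro ⟨b, y⟩ (h : b = a)
              subst h
              simp
            right_inv' := by
              intro y _
              simp
            open_source := (isOpen_discrete ({a} : Set Γ)).preimage continuous_fst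
            open_target := isOpen_univ
            continuousOn_toFun := hc.continuousOn
            continuousOn_invFun :=
              (continuous_const.prodMk (φ a).symm.continuous).continuousOn }, rfl, rfl⟩

lemma trans_etale : (transGpd Γ X).Etale :=
  ⟨localHomeo_of_family Γ X (fun _ => Homeomorph.refl X),
    localHomeo_of_family Γ X (fun a => Homeomorph.smul a)⟩

lemma trans_principal (hfree : ∀ (γ : Γ) (x : X), γ • x = x → γ = 1) :
    (transGpd Γ X).Principal := by
  rintro ⟨γ, x⟩ h
  have : γ = 1 := hfree γ x h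
  show (γ, x) = (1, x)
  rw [this]

/-- arrows with a given range are parametrised by the group -/
def rangeEquiv (x : X) : Γ ≃ {h : Γ × X // (transGpd Γ X).r h = x} where
  toFun γ := ⟨(γ, γ⁻¹ • x), by show γ • γ⁻¹ • x = x; rw [smul_inv_smul]⟩
  invFun h := h.1.1
  left_inv γ := rfl
  right_inv h := by
    obtain ⟨⟨γ, y⟩, hy⟩ := h
    have hy' : γ • y = x := hy
    apply Subtype.ext
    show (γ, γ⁻¹ • x) = (γ, y)
    rw [← hy', inv_smul_smul]

end Trans

section AmenZ

variable (X : Type) [TopologicalSpace X] [CompactSpace X] [T2Space X]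
  [MulAction (Multiplicative ℤ) X] [ContinuousConstSMul (Multiplicative ℤ) X]

/-- averaging functions -/
noncomputable def xi (n : ℕ) (k : ℤ) : ℝ := if 0 ≤ k ∧ k ≤ n then 1 / ((n : ℝ) + 1) else 0

lemma xi_nonneg (n : ℕ) (k : ℤ) : 0 ≤ xi n k := by
  unfold xi; split_ifs <;> positivity

lemma hasSum_xi (n : ℕ) : HasSum (xi n) 1 := by
  have h1 : HasSum (xi n) (∑ k ∈ Finset.Icc (0 : ℤ) n, xi n k) := by
    apply hasSum_sum_of_ne_finset_zero
    intro k hk
    unfold xi
    rw [Finset.mem_Icc] at hk
    rw [if_neg hk]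
  have h2 : ∑ k ∈ Finset.Icc (0 : ℤ) n, xi n k = 1 := by
    have h3 : ∀ k ∈ Finset.Icc (0 : ℤ) n, xi n k = 1 / ((n : ℝ) + 1) := by
      intro k hk
      unfold xi
      rw [if_pos (Finset.mem_Icc.mp hk)]
    rw [Finset.sum_congr rfl h3, Finset.sum_const, Int.card_Icc, nsmul_eq_mul]
    have : ((n : ℤ) + 1 - 0).toNat = n + 1 := by omega
    rw [this]
    push_cast
    field_simp
  rwa [h2] at h1

lemma hasSum_xi_diff (n : ℕ) (m : ℤ) : ∃ t ≤ 4 * |(m : ℝ)| / ((n : ℝ) + 1),
    HasSum (fun k : ℤ => |xi n (m + k) - xi n k|) t := by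
  let F : Finset ℤ := Finset.Ico (-|m|) |m| ∪ Finset.Ioc ((n : ℤ) - |m|) (n + |m|)
  have h1 : HasSum (fun k : ℤ => |xi n (m + k) - xi n k|)
      (∑ k ∈ F, |xi n (m + k) - xi n k|) := by
    apply hasSum_sum_of_ne_finset_zero
    intro k hk
    rw [Finset.mem_union, Finset.mem_Ico, Finset.mem_Ioc] at hk
    have h2 : xi n (m + k) = xi n k := by
      unfold xi
      have h3 : (0 ≤ m + k ∧ m + k ≤ n) ↔ (0 ≤ k ∧ k ≤ n) := by
        rcases abs_cases m with ⟨h4, h5⟩ | ⟨h4, h5⟩ <;> rw [h4] at hk <;> omega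
      simp only [h3]
    rw [h2, sub_self, abs_zero]
  refine ⟨_, ?_, h1⟩
  have h2 : ∀ k ∈ F, |xi n (m + k) - xi n k| ≤ 1 / ((n : ℝ) + 1) := by
    intro k _
    have h3 : ∀ k, xi n k ≤ 1 / ((n : ℝ) + 1) := by
      intro k; unfold xi; split_ifs
      · exact le_rfl
      · positivity
    have := h3 k
    have := h3 (m + k)
    have := xi_nonneg n k
    have := xi_nonneg n (m + k)
    rw [abs_le]; constructor <;> linarith
  have h3 : (F.card : ℝ) ≤ 4 * |(m : ℝ)| := by
    have h4 : F.card ≤ 4 * m.natAbs := by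
      refine (Finset.card_union_le _ _).trans ?_
      rw [Int.card_Ico, Int.card_Ioc]
      have := Int.natCast_natAbs m
      omega
    have h5 : ((4 * m.natAbs : ℕ) : ℝ) = 4 * |(m : ℝ)| := by
      push_cast
      rw [Nat.cast_natAbs]
      push_cast
      rfl
    rw [← h5]
    exact_mod_cast h4
  calc ∑ k ∈ F, |xi n (m + k) - xi n k| ≤ F.card • (1 / ((n : ℝ) + 1)) :=
        Finset.sum_le_card_nsmul _ _ _ h2
    _ = F.card * (1 / ((n : ℝ) + 1)) := nsmul_eq_mul _ _
    _ ≤ (4 * |(m : ℝ)|) * (1 / ((n : ℝ) + 1)) := by gcongr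
    _ = 4 * |(m : ℝ)| / ((n : ℝ) + 1) := by ring

theorem trans_amenable : (transGpd (Multiplicative ℤ) X).Amenable := by
  refine ⟨ℕ, inferInstance, inferInstance, inferInstance,
    fun n g => xi n (Multiplicative.toAdd g.1), ?_, ?_, ?_, ?_, ?_⟩
  · intro n
    exact (continuous_of_discreteTopology
      (f := fun a : Multiplicative ℤ => xi n (Multiplicative.toAdd a))).comp continuous_fst
  · intro n
    have hc : IsCompact (((fun k : ℤ => Multiplicative.ofAdd k) '' (Set.Icc (0 : ℤ) n)) ×ˢ
        (Set.univ : Set X)) :=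
      ((Set.finite_Icc (0 : ℤ) n).image _).isCompact.prod isCompact_univ
    apply HasCompactSupport.intro hc
    rintro ⟨a, x⟩ hx
    show xi n (Multiplicative.toAdd a) = 0
    unfold xi
    rw [if_neg]
    intro h
    apply hx
    exact ⟨⟨Multiplicative.toAdd a, h, rfl⟩, Set.mem_univ _⟩
  · intro n g; exact xi_nonneg _ _
  · intro n x
    rw [← (rangeEquiv (Multiplicative ℤ) X x).hasSum_iff]
    exact hasSum_xi n
  · intro K hK ε hε
    -- a bound for the group component on `K`
    have h1 : IsCompact ((fun g : Multiplicative ℤ × X => g.1) '' K) :=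
      hK.image continuous_fst
    have h2 : ((fun g : Multiplicative ℤ × X => g.1) '' K).Finite := by
      exact isCompact_iff_finite.mp h1
    have h3 : ((fun g : Multiplicative ℤ × X => (Multiplicative.toAdd g.1).natAbs) '' K).Finite := by
      have := h2.image (fun a : Multiplicative ℤ => (Multiplicative.toAdd a).natAbs)
      rw [Set.image_image] at this
      exact this
    obtain ⟨M, hM⟩ := h3.bddAbove
    obtain ⟨n0, hn0⟩ := exists_nat_gt (4 * (M : ℝ) / ε)
    refine ⟨n0, fun n hn g hg => ?_⟩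
    obtain ⟨t, ht1, ht2⟩ := hasSum_xi_diff n (Multiplicative.toAdd g.1)
    refine ⟨t, ht1.trans_lt ?_, ?_⟩
    · have h4 : |((Multiplicative.toAdd g.1 : ℤ) : ℝ)| ≤ M := by
        have := hM ⟨g, hg, rfl⟩
        have h5 : (((Multiplicative.toAdd g.1).natAbs : ℕ) : ℝ) ≤ M := by exact_mod_cast this
        rw [Nat.cast_natAbs] at h5
        push_cast at h5
        exact h5
      rw [div_lt_iff₀ (by positivity)]
      rw [div_lt_iff₀ hε] at hn0
      have h6 : (n0 : ℝ) ≤ n := by exact_mod_cast hn
      nlinarith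
    · rw [← (rangeEquiv (Multiplicative ℤ) X _).hasSum_iff]
      exact ht2

end AmenZ

end H317F
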