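import Mathlib
import Pool.Agent.H317F.BU

/-! Calculus of thin sets. -/

set_option linter.unusedSectionVars false

namespace H317F

open Finset unitInterval

section Basic

variable {p : ℕ} [NeZero p]

lemma Thin.mono {m n : ℕ} {A B : Set (PP p)} (h : Thin p m A) (hBA : B ⊆ A) (hmn : m ≤ n) :
    Thin p n B := by
  obtain ⟨F, δ, hδ, h1, h2⟩ := h
  exact ⟨F, δ, hδ, fun x hx => h1 x (hBA hx), fun S hS hd => (h2 S (hS.trans hBA) hd).trans hmn⟩

/-- invariance under rotation -/
def Inv (A : Set (PP p)) : Prop := ∀ x ∈ A, ∀ j, rot j x ∈ A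

lemma Thin.union {m n : ℕ} {A B : Set (PP p)} (hA : Thin p m A) (hB : Thin p n B)
    (iA : Inv A) (iB : Inv B) : Thin p (m + n) (A ∪ B) := by
  obtain ⟨F, δ, hδ, h1, h2⟩ := hA
  obtain ⟨F', δ', hδ', h1', h2'⟩ := hB
  have inv' : ∀ {A : Set (PP p)}, Inv A → ∀ x j, rot j x ∈ A → x ∈ A := by
    intro A hA x j hx
    have := hA _ hx (-j)
    rwa [rot_rot, neg_add_cancel, rot_zero] at this
  refine ⟨(F ∩ A) ∪ (F' ∩ B), min δ δ', lt_min hδ hδ', ?_, ?_⟩
  · rintro x (hx | hx)
    · obtain ⟨j, hj⟩ := h1 x hx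
      exact ⟨j, Or.inl ⟨hj, iA x hx j⟩⟩
    · obtain ⟨j, hj⟩ := h1' x hx
      exact ⟨j, Or.inr ⟨hj, iB x hx j⟩⟩
  · intro S hS hd
    have h3 := h2 (S ∩ A) Set.inter_subset_right fun x hx y hy =>
      (hd x hx.1 y hy.1).trans_le (min_le_left _ _)
    have h4 := h2' (S ∩ B) Set.inter_subset_right fun x hx y hy =>
      (hd x hx.1 y hy.1).trans_le (min_le_right _ _)
    have h5 : {j | ∃ x ∈ S, rot j x ∈ (F ∩ A) ∪ (F' ∩ B)} ⊆
        {j | ∃ x ∈ S ∩ A, rot j x ∈ F} ∪ {j | ∃ x ∈ S ∩ B, rot j x ∈ F'} := by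
      rintro j ⟨x, hx, (h6 | h6)⟩
      · exact Or.inl ⟨x, ⟨hx, inv' iA x j h6.2⟩, h6.1⟩
      · exact Or.inr ⟨x, ⟨hx, inv' iB x j h6.2⟩, h6.1⟩
    calc _ ≤ _ := Set.ncard_le_ncard h5 (Set.toFinite _)
      _ ≤ _ := Set.ncard_union_le _ _
      _ ≤ m + n := add_le_add h3 h4

lemma Thin.pull {m : ℕ} {A C : Set (PP p)} (h : Thin p m C) (f : PP p → PP p)
    (hf : UniformContinuous f) (u v : ZMod p) (huv : u * v = 1)
    (heq : ∀ x j, f (rot (u * j) x) = rot j (f x)) (hA : ∀ x ∈ A, f x ∈ C) : Thin p m A := by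
  obtain ⟨F, δ, hδ, h1, h2⟩ := h
  obtain ⟨η, hη, h3⟩ := Metric.uniformContinuous_iff.mp hf δ hδ
  refine ⟨f ⁻¹' F, η, hη, ?_, ?_⟩
  · intro x hx
    obtain ⟨j, hj⟩ := h1 (f x) (hA x hx)
    exact ⟨u * j, by rw [Set.mem_preimage, heq]; exact hj⟩
  · intro S hS hd
    have h4 := h2 (f '' S) (by rintro y ⟨x, hx, rfl⟩; exact hA x (hS hx)) (by
      rintro y ⟨x, hx, rfl⟩ y' ⟨x', hx', rfl⟩
      exact h3 (hd x hx x' hx'))
    refine le_trans ?_ h4
    have h5 : {j | ∃ x ∈ S, rot j x ∈ f ⁻¹' F} ⊆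
        (fun j => u * j) '' {j | ∃ y ∈ f '' S, rot j y ∈ F} := by
      rintro j ⟨x, hx, hj⟩
      refine ⟨v * j, ⟨f x, ⟨x, hx, rfl⟩, ?_⟩, ?_⟩
      · rw [← heq, ← mul_assoc, huv, one_mul]; exact hj
      · show u * (v * j) = j
        rw [← mul_assoc, huv, one_mul]
    exact (Set.ncard_le_ncard h5 (Set.toFinite _)).trans (Set.ncard_image_le (Set.toFinite _))

end Basic

section Slow

noncomputable def psi (s : ℝ) : ℝ := max 0 (min 1 (6 * s - 2))

lemma psi_nonneg (s : ℝ) : 0 ≤ psi s := le_max_left _ _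
lemma psi_le_one (s : ℝ) : psi s ≤ 1 := max_le zero_le_one (min_le_left _ _)
lemma psi_one {s : ℝ} (h : 1 / 2 ≤ s) : psi s = 1 := by
  unfold psi
  rw [min_eq_left (by linarith), max_eq_right zero_le_one]
lemma psi_zero : psi 0 = 0 := by unfold psi; norm_num
lemma psi_lip (a b : ℝ) : |psi a - psi b| ≤ 6 * |a - b| := by
  unfold psi
  have h1 := abs_max_sub_max_le_max 0 (min 1 (6 * a - 2)) 0 (min 1 (6 * b - 2))
  have h2 := abs_min_sub_min_le_max 1 (6 * a - 2) 1 (6 * b - 2)
  have h3 : |6 * a - 2 - (6 * b - 2)| = 6 * |a - b| := by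
    rw [show 6 * a - 2 - (6 * b - 2) = 6 * (a - b) by ring, abs_mul]; norm_num
  rw [h3] at h2
  have h4 : (0 : ℝ) ≤ 6 * |a - b| := by positivity
  refine h1.trans (max_le (by simp) (h2.trans (max_le (by simp) le_rfl)))

variable {p : ℕ}

/-- running minimum to the left -/
def mm (u : ZMod p → ℝ) : ZMod p → ℕ → ℝ
  | v, 0 => u v
  | v, i + 1 => min (u v) (mm u (v - 1) i)

lemma mm_le (u : ZMod p → ℝ) (v : ZMod p) (i t : ℕ) (ht : t ≤ i) : mm u v i ≤ u (v - t) := by
  induction i generalizing v t with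
  | zero =>
    obtain rfl : t = 0 := by omega
    simp [mm]
  | succ i ih =>
    rcases t with _ | t
    · simp [mm]
    · refine (min_le_right _ _).trans ?_
      have := ih (v - 1) t (by omega)
      rw [show v - ((t + 1 : ℕ) : ZMod p) = v - 1 - t by push_cast; ring]
      exact this

lemma mm_nonneg (u : ZMod p → ℝ) (hu : ∀ v, 0 ≤ u v) (v : ZMod p) (i : ℕ) : 0 ≤ mm u v i := by
  induction i generalizing v with
  | zero => exact hu v
  | succ i ih => exact le_min (hu v) (ih _)

lemma mm_le_one (u : ZMod p → ℝ) (hu : ∀ v, u v ≤ 1) (v : ZMod p) (i : ℕ) : mm u v i ≤ 1 := by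
  cases i with
  | zero => exact hu v
  | succ i => exact (min_le_left _ _).trans (hu v)

lemma mm_lip (u u' : ZMod p → ℝ) (ε : ℝ) (h : ∀ v, |u v - u' v| ≤ ε) (v : ZMod p) (i : ℕ) :
    |mm u v i - mm u' v i| ≤ ε := by
  induction i generalizing v with
  | zero => exact h v
  | succ i ih =>
    exact (abs_min_sub_min_le_max _ _ _ _).trans (max_le (h v) (ih _))

lemma mm_rot (u : ZMod p → ℝ) (j v : ZMod p) (i : ℕ) :
    mm (fun l => u (l + j)) v i = mm u (v + j) i := by
  induction i generalizing v with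
  | zero => rfl
  | succ i ih =>
    show min (u (v + j)) (mm (fun l => u (l + j)) (v - 1) i) = min (u (v + j)) (mm u (v + j - 1) i)
    rw [ih, show v - 1 + j = v + j - 1 by ring]

/-- the truncated distance to the left end of the hill -/
noncomputable def dd (y : PP p) (v : ZMod p) : ℝ :=
  ∑ i ∈ range p, mm (fun l => psi (y l)) v (i + 1)

lemma dd_rot (y : PP p) (j v : ZMod p) : dd (rot j y) v = dd y (v + j) := by
  unfold dd
  refine sum_congr rfl fun i _ => ?_
  exact mm_rot (fun l => psi (y l)) j v (i + 1)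

lemma dd_lip (y y' : PP p) [NeZero p] (v : ZMod p) : |dd y v - dd y' v| ≤ 6 * p * dist y y' := by
  unfold dd
  rw [← sum_sub_distrib]
  refine (abs_sum_le_sum_abs _ _).trans ?_
  have h1 : ∀ i ∈ range p, |mm (fun l => psi (y l)) v (i + 1) -
      mm (fun l => psi (y' l)) v (i + 1)| ≤ 6 * dist y y' := by
    intro i _
    apply mm_lip
    intro l
    refine (psi_lip _ _).trans ?_
    have : |(y l : ℝ) - y' l| ≤ dist y y' := by
      have := dist_le_pi_dist y y' l
      rwa [Subtype.dist_eq, Real.dist_eq] at this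
    linarith
  refine (sum_le_card_nsmul _ _ _ h1).trans ?_
  rw [card_range, nsmul_eq_mul]
  linarith

lemma dd_step (y : PP p) [NeZero p] (v : ZMod p) (hv : (1 : ℝ) / 2 ≤ y v)
    (hv1 : (1 : ℝ) / 2 ≤ y (v - 1)) (hz : ∃ j, y j = 0) : dd y v = dd y (v - 1) + 1 := by
  set u : ZMod p → ℝ := fun l => psi (y l) with hu
  have hu0 : ∀ l, 0 ≤ u l := fun l => psi_nonneg _
  have hu1 : ∀ l, u l ≤ 1 := fun l => psi_le_one _
  have h1 : ∀ i, mm u v (i + 1) = mm u (v - 1) i := by
    intro i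
    show min (u v) (mm u (v - 1) i) = _
    have : u v = 1 := psi_one hv
    rw [this]
    exact min_eq_right (mm_le_one u hu1 _ _)
  have h2 : mm u (v - 1) p = 0 := by
    obtain ⟨j, hj⟩ := hz
    apply le_antisymm _ (mm_nonneg u hu0 _ _)
    have h3 := mm_le u (v - 1) p ((v - 1 - j).val) (ZMod.val_lt _).le
    rw [ZMod.natCast_zmod_val, sub_sub_cancel] at h3
    refine h3.trans (le_of_eq ?_)
    show psi (y j) = 0
    rw [hj]
    exact psi_zero
  have h3 : mm u (v - 1) 0 = 1 := psi_one hv1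
  unfold dd
  rw [← hu, sum_congr rfl fun i _ => h1 i]
  have h4 := sum_range_succ (fun i => mm u (v - 1) i) p
  have h5 := sum_range_succ' (fun i => mm u (v - 1) i) p
  rw [h4, h2, h3, add_zero] at h5
  exact h5

lemma dd_block (y : PP p) [NeZero p] (v : ZMod p) (t : ℕ)
    (h : ∀ s ≤ t, (1 : ℝ) / 2 ≤ y (v + s)) (hz : ∃ j, y j = 0) :
    dd y (v + t) = dd y v + t := by
  induction t with
  | zero => simp
  | succ t ih =>
    have h1 := dd_step y (v + (t + 1 : ℕ)) (h _ le_rfl) (by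
      have := h t (by omega)
      rw [show v + ((t + 1 : ℕ) : ZMod p) - 1 = v + t by push_cast; ring]
      exact this) hz
    rw [h1, show v + ((t + 1 : ℕ) : ZMod p) - 1 = v + t by push_cast; ring,
      ih fun s hs => h s (by omega)]
    push_cast; ring

/-- slow sequences -/
def Slow (p q : ℕ) : Set (PP p) :=
  {y | (∀ l, |(y (l + 1) : ℝ) - y l| ≤ 1 / (5 * q)) ∧ y ∈ OO p}

lemma slow_far {q : ℕ} {y : PP p} (hy : ∀ l, |(y (l + 1) : ℝ) - y l| ≤ 1 / (5 * q)) (l : ZMod p)
    (t : ℕ) : |(y (l + t) : ℝ) - y l| ≤ t / (5 * q) := by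
  induction t with
  | zero => simp
  | succ t ih =>
    have h1 := hy (l + t)
    have h2 : (l + ((t + 1 : ℕ) : ZMod p)) = l + t + 1 := by push_cast; ring
    rw [h2]
    calc |(y (l + t + 1) : ℝ) - y l| ≤ |(y (l + t + 1) : ℝ) - y (l + t)| + |(y (l + t) : ℝ) - y l| :=
          abs_sub_le _ _ _
      _ ≤ 1 / (5 * q) + t / (5 * q) := add_le_add h1 ih
      _ = ((t + 1 : ℕ) : ℝ) / (5 * q) := by push_cast; ring

theorem thin_slow (p q : ℕ) [NeZero p] (hq : 0 < q) : Thin p (3 * (p / q + 1)) (Slow p q) := by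
  classical
  have hp0 : (0 : ℝ) < p := by
    have := Nat.pos_of_ne_zero (NeZero.ne p)
    exact_mod_cast this
  have hp1 : (1 : ℝ) ≤ p := by
    have := Nat.pos_of_ne_zero (NeZero.ne p)
    exact_mod_cast this
  have hq0 : (0 : ℝ) < q := by exact_mod_cast hq
  refine ⟨{y | ∃ v : ZMod p, (2 : ℝ) / 3 ≤ y v ∧ v - ((⌈dd y v⌉ : ℤ) : ZMod p) = 0},
    1 / (15 * p), by positivity, ?_, ?_⟩
  · rintro y ⟨_, ⟨j, hj⟩, _⟩
    refine ⟨j - ((⌈dd y j⌉ : ℤ) : ZMod p), j - (j - ((⌈dd y j⌉ : ℤ) : ZMod p)), ?_, ?_⟩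
    · rw [rot_apply, sub_add_cancel, hj]; norm_num
    · rw [dd_rot, sub_add_cancel, sub_sub_cancel, sub_self]
  · intro S hS hd
    rcases S.eq_empty_or_nonempty with rfl | ⟨y₀, hy₀⟩
    · simp
    obtain ⟨hslow, ⟨_, hz⟩⟩ := hS hy₀
    -- the good positions of `y₀`
    let V0 : Finset (ZMod p) := univ.filter fun v => (3 : ℝ) / 5 ≤ y₀ v
    let g : ZMod p → ZMod p := fun v => v - ((⌈dd y₀ v⌉ : ℤ) : ZMod p)
    let β : ZMod p → ℕ := fun v => v.val / q
    have hg0 : ∀ v ∈ V0, ∀ v' ∈ V0, v.val ≤ v'.val → β v = β v' → g v = g v' := by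
      intro v hv v' hv' hle hβ
      have hv1 : (3 : ℝ) / 5 ≤ y₀ v := (mem_filter.mp hv).2
      have hv2 : (3 : ℝ) / 5 ≤ y₀ v' := (mem_filter.mp hv').2
      obtain ⟨t, ht⟩ := Nat.exists_eq_add_of_le hle
      have htq : t < q := by
        have h1 := Nat.div_add_mod v.val q
        have h2 := Nat.div_add_mod v'.val q
        have h3 := Nat.mod_lt v'.val hq
        have h4 : v.val / q = v'.val / q := hβ
        rw [← h4] at h2
        omega
      have hv' : v' = v + t := by
        rw [← ZMod.natCast_zmod_val v', ht]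
        push_cast
        rw [ZMod.natCast_zmod_val]
      have h5 : ∀ s ≤ t, (1 : ℝ) / 2 ≤ y₀ (v + s) := by
        intro s hs
        by_cases hcase : 2 * s ≤ t
        · have h6 := slow_far hslow v s
          have h7 : (s : ℝ) / (5 * q) ≤ 1 / 10 := by
            rw [div_le_div_iff₀ (by positivity) (by norm_num)]
            have : (2 * s : ℝ) ≤ q := by
              have : 2 * s ≤ q := by omega
              exact_mod_cast this
            nlinarith
          have h8 := (abs_le.mp h6).1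
          linarith
        · have h6 := slow_far hslow (v + s) (t - s)
          have h7 : ((t - s : ℕ) : ℝ) / (5 * q) ≤ 1 / 10 := by
            rw [div_le_div_iff₀ (by positivity) (by norm_num)]
            have : (2 * (t - s : ℕ) : ℝ) ≤ q := by
              have : 2 * (t - s) ≤ q := by omega
              exact_mod_cast this
            nlinarith
          have h9 : v + (s : ZMod p) + ((t - s : ℕ) : ZMod p) = v' := by
            rw [hv', add_assoc, ← Nat.cast_add]
            congr 2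
            omega
          rw [h9] at h6
          have h8 := (abs_le.mp h6).2
          linarith
      show v - ((⌈dd y₀ v⌉ : ℤ) : ZMod p) = v' - ((⌈dd y₀ v'⌉ : ℤ) : ZMod p)
      rw [hv', dd_block y₀ v t h5 hz]
      have : ⌈dd y₀ v + (t : ℝ)⌉ = ⌈dd y₀ v⌉ + t := Int.ceil_add_natCast _ _
      rw [this]
      push_cast
      ring
    have hg : ∀ v ∈ V0, ∀ v' ∈ V0, β v = β v' → g v = g v' := by
      intro v hv v' hv' hβ
      rcases le_total v.val v'.val with h | h
      · exact hg0 v hv v' hv' h hβ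
      · exact (hg0 v' hv' v hv h hβ.symm).symm
    have hcard : (V0.image g).card ≤ p / q + 1 := by
      have h1 : (V0.image β).card ≤ p / q + 1 := by
        have : V0.image β ⊆ range (p / q + 1) := by
          intro b hb
          obtain ⟨v, _, rfl⟩ := mem_image.mp hb
          rw [mem_range]
          exact Nat.lt_succ_of_le (Nat.div_le_div_right (ZMod.val_lt v).le)
        simpa using card_le_card this
      refine le_trans ?_ h1
      -- choose representatives
      have h2 : ∀ b ∈ V0.image β, ∃ v ∈ V0, β v = b := fun b hb => mem_image.mp hb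
      choose! rep hrep1 hrep2 using h2
      have h3 : V0.image g ⊆ (V0.image β).image fun b => g (rep b) := by
        intro w hw
        obtain ⟨v, hv, rfl⟩ := mem_image.mp hw
        have hb : β v ∈ V0.image β := mem_image_of_mem _ hv
        exact mem_image.mpr ⟨β v, hb, (hg _ (hrep1 _ hb) _ hv (hrep2 _ hb))⟩
      exact (card_le_card h3).trans card_image_le
    let T : Finset (ZMod p) := (V0.image g).image (fun w => w - 1) ∪ (V0.image g ∪
      (V0.image g).image (fun w => w + 1))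
    have hT : T.card ≤ 3 * (p / q + 1) := by
      have h1 := card_union_le ((V0.image g).image (fun w => w - 1)) (V0.image g ∪
        (V0.image g).image (fun w => w + 1))
      have h2 := card_union_le (V0.image g) ((V0.image g).image (fun w => w + 1))
      have h3 : ((V0.image g).image (fun w => w - 1)).card ≤ _ := card_image_le
      have h4 : ((V0.image g).image (fun w => w + 1)).card ≤ _ := card_image_le
      show (_ ∪ _ : Finset (ZMod p)).card ≤ _
      omega
    refine le_trans ?_ hT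
    rw [← Set.ncard_coe_finset]
    apply Set.ncard_le_ncard _ (Set.toFinite _)
    rintro j ⟨y, hy, v, hv1, hv2⟩
    rw [rot_apply] at hv1
    rw [dd_rot] at hv2
    set v' := v + j with hv'
    have hdist : dist y y₀ < 1 / (15 * p) := hd y hy y₀ hy₀
    have hdist2 : |(y v' : ℝ) - y₀ v'| ≤ dist y y₀ := by
      have := dist_le_pi_dist y y₀ v'
      rwa [Subtype.dist_eq, Real.dist_eq] at this
    have hsmall : (1 : ℝ) / (15 * p) ≤ 1 / 15 := by
      apply div_le_div_of_nonneg_left (by norm_num) (by norm_num)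
      linarith
    have hV : v' ∈ V0 := by
      rw [mem_filter]
      refine ⟨mem_univ _, ?_⟩
      have := (abs_le.mp hdist2).2
      linarith
    have hdd : |dd y v' - dd y₀ v'| < 1 := by
      refine (dd_lip y y₀ v').trans_lt ?_
      calc 6 * p * dist y y₀ ≤ 6 * p * (1 / (15 * p)) := by gcongr
        _ = 6 / 15 := by field_simp
        _ < 1 := by norm_num
    have hj : j = v' - ((⌈dd y v'⌉ : ℤ) : ZMod p) := by
      have : v = v' - j := by rw [hv']; ring
      rw [this] at hv2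
      have h6 : v' - j - ((⌈dd y v'⌉ : ℤ) : ZMod p) + j = j := by rw [hv2]; ring
      rw [← h6]; ring
    have hceil : ⌈dd y v'⌉ = ⌈dd y₀ v'⌉ - 1 ∨ ⌈dd y v'⌉ = ⌈dd y₀ v'⌉ ∨
        ⌈dd y v'⌉ = ⌈dd y₀ v'⌉ + 1 := by
      obtain ⟨h6, h7⟩ := abs_lt.mp hdd
      have h8 : ⌈dd y v'⌉ ≤ ⌈dd y₀ v'⌉ + 1 := by
        rw [← Int.ceil_add_one]
        exact Int.ceil_mono (by linarith)
      have h9 : ⌈dd y₀ v'⌉ ≤ ⌈dd y v'⌉ + 1 := by
        rw [← Int.ceil_add_one]
        exact Int.ceil_mono (by linarith)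
      omega
    have hgm : g v' ∈ V0.image g := mem_image_of_mem _ hV
    show j ∈ (T : Set (ZMod p))
    rw [mem_coe, mem_union, mem_union]
    rcases hceil with h | h | h
    · right; right
      refine mem_image.mpr ⟨g v', hgm, ?_⟩
      rw [hj, h]; push_cast; show v' - _ + 1 = _; ring
    · right; left
      rw [hj, h]; exact hgm
    · left
      refine mem_image.mpr ⟨g v', hgm, ?_⟩
      rw [hj, h]; push_cast; show v' - _ - 1 = _; ring

end Slow

end H317F
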