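import Mathlib
import Pool.Agent.H317F.Thin

/-! The window lemma, and the thinness of the sets of nearly periodic sequences. -/

set_option linter.unusedSectionVars false

namespace H317F

open Finset unitInterval

section Conv

variable {p : ℕ}

/-- index range -/
noncomputable def rng (q : ℕ) : Finset ℤ := Icc (-(5 * q : ℤ)) (5 * q)

lemma rng_ne (q : ℕ) : (rng q).Nonempty := ⟨0, by simp [rng]⟩

/-- a term of the sup-convolution -/
noncomputable def term (q : ℕ) (u : ZMod p → ℝ) (l : ZMod p) (i : ℤ) : ℝ :=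
  max 0 (u (l + i) - |(i : ℝ)| / (5 * q))

/-- sup-convolution with a tent of slope `1 / (5 q)` -/
noncomputable def cv (q : ℕ) (u : ZMod p → ℝ) (l : ZMod p) : ℝ :=
  (rng q).sup' (rng_ne q) (term q u l)

lemma sup'_lip {ι : Type*} (s : Finset ι) (hs : s.Nonempty) (f g : ι → ℝ) (ε : ℝ)
    (h : ∀ i ∈ s, |f i - g i| ≤ ε) : |s.sup' hs f - s.sup' hs g| ≤ ε := by
  rw [abs_sub_le_iff]
  constructor
  · rw [sub_le_iff_le_add]
    apply Finset.sup'_le
    intro i hi
    have h1 := (abs_sub_le_iff.mp (h i hi)).1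
    have h2 := Finset.le_sup' g hi
    linarith
  · rw [sub_le_iff_le_add]
    apply Finset.sup'_le
    intro i hi
    have h1 := (abs_sub_le_iff.mp (h i hi)).2
    have h2 := Finset.le_sup' f hi
    linarith

lemma cv_nonneg (q : ℕ) (u : ZMod p → ℝ) (l : ZMod p) : 0 ≤ cv q u l := by
  obtain ⟨i, hi⟩ := rng_ne q
  exact (le_max_left _ _).trans (Finset.le_sup' (term q u l) hi)

lemma cv_le_one (q : ℕ) (u : ZMod p → ℝ) (hu : ∀ l, u l ≤ 1) (l : ZMod p) : cv q u l ≤ 1 := by
  apply Finset.sup'_le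
  intro i _
  apply max_le zero_le_one
  have h1 : (0 : ℝ) ≤ |(i : ℝ)| / (5 * q) := by positivity
  have := hu (l + i)
  linarith

lemma cv_lip (q : ℕ) (u u' : ZMod p → ℝ) (ε : ℝ) (h : ∀ l, |u l - u' l| ≤ ε) (l : ZMod p) :
    |cv q u l - cv q u' l| ≤ ε := by
  apply sup'_lip
  intro i _
  unfold term
  have h0 : 0 ≤ ε := (abs_nonneg _).trans (h l)
  refine (abs_max_sub_max_le_max _ _ _ _).trans (max_le (by simpa using h0) ?_)
  have := h (l + i)
  rwa [sub_sub_sub_cancel_right]

lemma cv_rot (q : ℕ) (u : ZMod p → ℝ) (j l : ZMod p) :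
    cv q (fun i => u (i + j)) l = cv q u (l + j) := by
  unfold cv
  apply Finset.sup'_congr _ rfl
  intro i _
  unfold term
  show max 0 (u (l + (i : ZMod p) + j) - _) = _
  rw [show l + (i : ZMod p) + j = l + j + i by ring]

lemma cv_one (q : ℕ) (u : ZMod p → ℝ) (hu : ∀ l, u l ≤ 1) (l : ZMod p) (h : u l = 1) :
    cv q u l = 1 := by
  apply le_antisymm (cv_le_one q u hu l)
  have h0 : (0 : ℤ) ∈ rng q := by simp [rng]
  have := Finset.le_sup' (term q u l) h0
  refine le_trans ?_ this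
  unfold term
  simp [h]

lemma cv_zero (q : ℕ) (u : ZMod p → ℝ) (l : ZMod p) (h : ∀ i ∈ rng q, u (l + i) = 0) :
    cv q u l = 0 := by
  apply le_antisymm _ (cv_nonneg q u l)
  apply Finset.sup'_le
  intro i hi
  unfold term
  rw [h i hi]
  apply max_le le_rfl
  have h1 : (0 : ℝ) ≤ |(i : ℝ)| / (5 * q) := by positivity
  linarith

lemma cv_slow_aux (q : ℕ) (hq : 0 < q) (u : ZMod p → ℝ) (hu : ∀ l, u l ≤ 1)
    (l : ZMod p) (s : ℤ) (hs : s = 1 ∨ s = -1) :
    cv q u (l + s) ≤ cv q u l + 1 / (5 * q) := by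
  have hq0 : (0 : ℝ) < q := by exact_mod_cast hq
  apply Finset.sup'_le
  intro i hi
  unfold term
  have h5 : (0 : ℝ) ≤ 1 / (5 * q) := by positivity
  apply max_le
  · have := cv_nonneg q u l
    linarith
  · by_cases hmem : i + s ∈ rng q
    · have h1 := Finset.le_sup' (term q u l) hmem
      have h2 : u (l + ((i + s : ℤ) : ZMod p)) - |((i + s : ℤ) : ℝ)| / (5 * q) ≤
          term q u l (i + s) := le_max_right _ _
      have h3 : l + (s : ZMod p) + (i : ZMod p) = l + ((i + s : ℤ) : ZMod p) := by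
        push_cast; ring
      rw [h3]
      have h4 : |((i + s : ℤ) : ℝ)| ≤ |(i : ℝ)| + 1 := by
        push_cast
        refine (abs_add_le _ _).trans ?_
        rcases hs with rfl | rfl <;> simp
      have h6 : |((i + s : ℤ) : ℝ)| / (5 * q) ≤ |(i : ℝ)| / (5 * q) + 1 / (5 * q) := by
        rw [← add_div]; gcongr
      show _ ≤ (rng q).sup' (rng_ne q) (term q u l) + _
      linarith
    · have h1 : |(i : ℝ)| / (5 * q) = 1 := by
        have h2 : i = 5 * q ∨ i = -(5 * q) := by
          simp only [rng, Finset.mem_Icc, not_and_or, not_le] at hmem hi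
          rcases hs with rfl | rfl <;> omega
        have h3 : |(i : ℝ)| = 5 * q := by
          rcases h2 with rfl | rfl
          · push_cast; rw [abs_of_nonneg]; positivity
          · push_cast; rw [abs_neg, abs_of_nonneg]; positivity
        rw [h3]; field_simp
      have h2 := hu (l + s + i)
      have := cv_nonneg q u l
      rw [h1]
      linarith

lemma cv_slow (q : ℕ) (hq : 0 < q) (u : ZMod p → ℝ) (hu : ∀ l, u l ≤ 1) (l : ZMod p) :
    |cv q u (l + 1) - cv q u l| ≤ 1 / (5 * q) := by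
  rw [abs_sub_le_iff]
  constructor
  · have := cv_slow_aux q hq u hu l 1 (Or.inl rfl)
    push_cast at this
    linarith
  · have := cv_slow_aux q hq u hu (l + 1) (-1) (Or.inr rfl)
    push_cast at this
    rw [add_neg_cancel_right] at this
    linarith

/-- the convolution as a map of `PP p` -/
noncomputable def conv (q : ℕ) (u : PP p) : PP p := fun l =>
  ⟨cv q (fun i => (u i : ℝ)) l, cv_nonneg _ _ _, cv_le_one _ _ (fun i => (u i).2.2) _⟩

lemma conv_rot (q : ℕ) (u : PP p) (j : ZMod p) : conv q (rot j u) = rot j (conv q u) := by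
  funext l
  apply Subtype.ext
  exact cv_rot q (fun i => (u i : ℝ)) j l

lemma conv_uc (q : ℕ) [NeZero p] : UniformContinuous (conv (p := p) q) := by
  have : LipschitzWith 1 (conv (p := p) q) := by
    apply LipschitzWith.of_dist_le_mul
    intro x y
    rw [NNReal.coe_one, one_mul, dist_pi_le_iff dist_nonneg]
    intro l
    rw [Subtype.dist_eq, Real.dist_eq]
    apply cv_lip
    intro i
    have := dist_le_pi_dist x y i
    rwa [Subtype.dist_eq, Real.dist_eq] at this
  exact this.uniformContinuous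

/-- **Window lemma.** -/
theorem thin_window {q : ℕ} [NeZero p] (hq : 0 < q) (f : PP p → PP p)
    (hf : UniformContinuous f) (heq : ∀ x j, f (rot j x) = rot j (f x)) {A : Set (PP p)}
    (hA : ∀ x ∈ A, (∃ l, f x l = 1) ∧ ∃ l : ZMod p, ∀ i ∈ rng q, f x (l + i) = 0) :
    Thin p (3 * (p / q + 1)) A := by
  refine (thin_slow p q hq).pull (fun x => conv q (f x)) ((conv_uc q).comp hf) 1 1 (by ring)
    (fun x j => ?_) (fun x hx => ?_)
  · show conv q (f (rot (1 * j) x)) = rot j (conv q (f x))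
    rw [one_mul, heq, conv_rot]
  · obtain ⟨⟨a, ha⟩, ⟨b, hb⟩⟩ := hA x hx
    refine ⟨fun l => cv_slow q hq _ (fun i => (f x i).2.2) l, ⟨a, ?_⟩, ⟨b, ?_⟩⟩
    · apply Subtype.ext
      exact cv_one q _ (fun i => (f x i).2.2) a (by rw [ha]; rfl)
    · apply Subtype.ext
      exact cv_zero q _ b (fun i hi => by rw [hb i hi]; rfl)

end Conv

section Bad

/-- `z` is robustly non-`k`-periodic with parameter `q` -/
def NP (k q : ℕ) (z : ℤ → I) : Prop :=
  ∀ i : ℤ, ∃ t ∈ rng q, 1 / (10 * q : ℝ) ≤ |(z (i + t + k) : ℝ) - z (i + t)|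

/-- periodic extension -/
def per {p : ℕ} (x : PP p) : ℤ → I := fun n => x (n : ZMod p)

variable {p : ℕ}

def BadA (p k q : ℕ) : Set (PP p) :=
  {x | x ∈ OO p ∧ ∀ j : ZMod p, |(x (j + k) : ℝ) - x j| ≤ 1 / (5 * q)}

def BadB (p k q : ℕ) : Set (PP p) :=
  {x | (∃ j : ZMod p, 1 / (5 * q : ℝ) ≤ |(x (j + k) : ℝ) - x j|) ∧
    ∃ j : ZMod p, ∀ i ∈ rng q, |(x (j + (i : ℤ) + k) : ℝ) - x (j + (i : ℤ))| ≤ 1 / (10 * q)}

lemma inv_BadA (k q : ℕ) : Inv (BadA p k q) := by
  rintro x ⟨h1, h2⟩ j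
  refine ⟨rot_mem_OO h1 j, fun l => ?_⟩
  have := h2 (l + j)
  rw [rot_apply, rot_apply, show l + (k : ZMod p) + j = l + j + k by ring]
  exact this

lemma inv_BadB (k q : ℕ) : Inv (BadB p k q) := by
  rintro x ⟨⟨a, ha⟩, ⟨b, hb⟩⟩ j
  refine ⟨⟨a - j, ?_⟩, ⟨b - j, fun i hi => ?_⟩⟩
  · rw [rot_apply, rot_apply, show a - j + (k : ZMod p) + j = a + k by ring, sub_add_cancel]
    exact ha
  · rw [rot_apply, rot_apply, show b - j + (i : ZMod p) + (k : ZMod p) + j = b + i + k by ring,
      show b - j + (i : ZMod p) + j = b + i by ring]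
    exact hb i hi

lemma thin_BadA (k q : ℕ) [hp : Fact p.Prime] (hk : 0 < k) (hkp : k < p) (hq : 0 < q) :
    Thin p (3 * (p / q + 1)) (BadA p k q) := by
  have hk0 : (k : ZMod p) ≠ 0 := by
    rw [Ne, ZMod.natCast_eq_zero_iff]
    exact fun h => absurd (Nat.le_of_dvd hk h) (by omega)
  refine (thin_slow p q hq).pull (fun x l => x (k * l)) ?_ (k : ZMod p) (k : ZMod p)⁻¹
    (mul_inv_cancel₀ hk0) (fun x j => ?_) (fun x hx => ?_)
  · have : LipschitzWith 1 (fun (x : PP p) (l : ZMod p) => x (k * l)) := by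
      apply LipschitzWith.of_dist_le_mul
      intro x y
      rw [NNReal.coe_one, one_mul, dist_pi_le_iff dist_nonneg]
      intro l
      exact dist_le_pi_dist x y _
    exact this.uniformContinuous
  · funext l
    simp only [rot_apply]
    rw [mul_add]
  · obtain ⟨⟨⟨a, ha⟩, ⟨b, hb⟩⟩, h2⟩ := hx
    refine ⟨fun l => ?_, ⟨(k : ZMod p)⁻¹ * a, ?_⟩, ⟨(k : ZMod p)⁻¹ * b, ?_⟩⟩
    · have := h2 (k * l)
      show |((x (k * (l + 1)) : I) : ℝ) - x (k * l)| ≤ _
      rw [mul_add, mul_one]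
      exact this
    · show x (k * ((k : ZMod p)⁻¹ * a)) = 1
      rw [← mul_assoc, mul_inv_cancel₀ hk0, one_mul, ha]
    · show x (k * ((k : ZMod p)⁻¹ * b)) = 0
      rw [← mul_assoc, mul_inv_cancel₀ hk0, one_mul, hb]

/-- clamp to `[0,1]` -/
noncomputable def clampI (s : ℝ) : I := Set.projIcc 0 1 zero_le_one s

lemma thin_BadB (k q : ℕ) [NeZero p] (hq : 0 < q) :
    Thin p (3 * (p / q + 1)) (BadB p k q) := by
  have hq0 : (0 : ℝ) < q := by exact_mod_cast hq
  apply thin_window hq (fun (x : PP p) (l : ZMod p) =>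
    clampI (10 * q * |(x (l + k) : ℝ) - x l| - 1))
  · have : LipschitzWith (20 * q) (fun (x : PP p) (l : ZMod p) =>
        clampI (10 * q * |(x (l + k) : ℝ) - x l| - 1)) := by
      apply LipschitzWith.of_dist_le_mul
      intro x y
      rw [dist_pi_le_iff (by positivity)]
      intro l
      have h1 : dist (clampI (10 * q * |(x (l + k) : ℝ) - x l| - 1))
          (clampI (10 * q * |(y (l + k) : ℝ) - y l| - 1)) ≤
          |(10 * q * |(x (l + k) : ℝ) - x l| - 1) - (10 * q * |(y (l + k) : ℝ) - y l| - 1)| := by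
        rw [Subtype.dist_eq, Real.dist_eq]
        exact Set.abs_projIcc_sub_projIcc _
      refine h1.trans ?_
      have h2 : (10 * q * |(x (l + k) : ℝ) - x l| - 1) - (10 * q * |(y (l + k) : ℝ) - y l| - 1) =
          10 * q * (|(x (l + k) : ℝ) - x l| - |(y (l + k) : ℝ) - y l|) := by ring
      rw [h2, abs_mul, abs_of_nonneg (by positivity : (0 : ℝ) ≤ 10 * q)]
      have h3 := abs_abs_sub_abs_le ((x (l + k) : ℝ) - x l) ((y (l + k) : ℝ) - y l)
      have h4 : |(x (l + k) : ℝ) - x l - ((y (l + k) : ℝ) - y l)| ≤ dist x y + dist x y := by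
        have h5 := dist_le_pi_dist x y (l + k)
        have h6 := dist_le_pi_dist x y l
        rw [Subtype.dist_eq, Real.dist_eq] at h5 h6
        rw [show (x (l + k) : ℝ) - x l - ((y (l + k) : ℝ) - y l) =
          ((x (l + k) : ℝ) - y (l + k)) - (x l - y l) by ring]
        exact (abs_sub _ _).trans (add_le_add h5 h6)
      have h7 : ((20 * q : NNReal) : ℝ) = 20 * q := by simp
      rw [h7]
      calc 10 * (q : ℝ) * |(|(x (l + k) : ℝ) - x l| - |(y (l + k) : ℝ) - y l|)| ≤
          10 * q * (dist x y + dist x y) := by gcongr; exact h3.trans h4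
        _ = 20 * q * dist x y := by ring
    exact this.uniformContinuous
  · intro x j
    funext l
    simp only [rot_apply]
    rw [show l + (k : ZMod p) + j = l + j + k by ring]
  · rintro x ⟨⟨a, ha⟩, ⟨b, hb⟩⟩
    refine ⟨⟨a, ?_⟩, ⟨b, fun i hi => ?_⟩⟩
    · unfold clampI
      rw [Set.projIcc_of_right_le]
      · rfl
      · have h1 : (2 : ℝ) ≤ 10 * q * |(x (a + k) : ℝ) - x a| := by
          calc (2 : ℝ) = 10 * q * (1 / (5 * q)) := by field_simp; norm_num
            _ ≤ _ := by gcongr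
        linarith
    · unfold clampI
      rw [Set.projIcc_of_le_left]
      · rfl
      · have h1 : 10 * q * |(x (b + (i : ℤ) + k) : ℝ) - x (b + (i : ℤ))| ≤ 1 := by
          calc _ ≤ 10 * q * (1 / (10 * q : ℝ)) := by gcongr; exact hb i hi
            _ = 1 := by field_simp
        linarith

lemma bad_subset (k q : ℕ) (x : PP p) (hx : x ∈ OO p) (h : ¬ NP k q (per x)) :
    x ∈ BadA p k q ∪ BadB p k q := by
  by_cases hA : ∀ j : ZMod p, |(x (j + k) : ℝ) - x j| ≤ 1 / (5 * q)
  · exact Or.inl ⟨hx, hA⟩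
  · right
    push Not at hA
    obtain ⟨a, ha⟩ := hA
    refine ⟨⟨a, ha.le⟩, ?_⟩
    unfold NP at h
    push Not at h
    obtain ⟨i, hi⟩ := h
    refine ⟨(i : ZMod p), fun t ht => ?_⟩
    have := hi t ht
    unfold per at this
    push_cast at this
    exact this.le

end Bad

end H317F
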