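import Mathlib
import Pool.Agent.H317F.Win

/-! The subsystem of `[0,1]^ℤ`. -/

set_option linter.unusedSectionVars false

namespace H317F

open Finset unitInterval Topology

/-- the full shift on `[0,1]` -/
abbrev ZZ := ℤ → I

/-- powers of the shift -/
def T (n : ℤ) (z : ZZ) : ZZ := fun i => z (i + n)

@[simp] lemma T_apply (n i : ℤ) (z : ZZ) : T n z i = z (i + n) := rfl

lemma T_T (m n : ℤ) (z : ZZ) : T m (T n z) = T (m + n) z := by
  funext i; simp [add_assoc]

@[simp] lemma T_zero (z : ZZ) : T 0 z = z := by funext i; simp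

lemma continuous_T (n : ℤ) : Continuous (T n) :=
  continuous_pi fun i => continuous_apply (i + n)

lemma T_per {p : ℕ} (n : ℤ) (x : PP p) : T n (per x) = per (rot (n : ZMod p) x) := by
  funext i; simp [per]

lemma NP_T {k q : ℕ} {z : ZZ} (h : NP k q z) (n : ℤ) : NP k q (T n z) := by
  intro i
  obtain ⟨t, ht, h1⟩ := h (i + n)
  refine ⟨t, ht, ?_⟩
  rw [T_apply, T_apply, show i + t + (k : ℤ) + n = i + n + t + k by ring,
    show i + t + n = i + n + t by ring]
  exact h1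

lemma isClosed_NP (k q : ℕ) : IsClosed {z : ZZ | NP k q z} := by
  have h1 : {z : ZZ | NP k q z} = ⋂ i : ℤ, ⋃ t ∈ rng q,
      {z : ZZ | 1 / (10 * q : ℝ) ≤ |(z (i + t + k) : ℝ) - z (i + t)|} := by
    ext z
    simp only [Set.mem_iInter, Set.mem_iUnion, exists_prop]
    rfl
  rw [h1]
  refine isClosed_iInter fun i => isClosed_biUnion_finset fun t _ => ?_
  apply isClosed_le continuous_const
  have h2 : ∀ j : ℤ, Continuous fun z : ZZ => (z j : ℝ) := fun j =>
    continuous_subtype_val.comp (continuous_apply j)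
  exact ((h2 _).sub (h2 _)).abs

/-- scale parameters -/
def qq (k : ℕ) : ℕ := 2 ^ (k + 7)

lemma qq_pos (k : ℕ) : 0 < qq k := by unfold qq; positivity

/-- finite stages -/
def XN (n : ℕ) : Set ZZ := {z | ∀ k < n, NP (k + 1) (qq k) z}

/-- the system -/
def XX : Set ZZ := {z | ∀ k, NP (k + 1) (qq k) z}

lemma isClosed_XX : IsClosed XX := by
  have : XX = ⋂ k, {z : ZZ | NP (k + 1) (qq k) z} := by
    ext z; simp only [Set.mem_iInter]; rfl
  rw [this]
  exact isClosed_iInter fun k => isClosed_NP _ _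

lemma T_mem_XX {z : ZZ} (hz : z ∈ XX) (n : ℤ) : T n z ∈ XX := fun k => NP_T (hz k) n

lemma XX_free_aux {z : ZZ} (hz : z ∈ XX) (k : ℕ) (h : T (k + 1 : ℕ) z = z) : False := by
  obtain ⟨t, _, h1⟩ := hz k 0
  have h2 := congrFun h (0 + t)
  rw [T_apply] at h2
  rw [h2, sub_self, abs_zero] at h1
  have : (0 : ℝ) < 1 / (10 * qq k) := by
    have := qq_pos k
    positivity
  linarith

lemma XX_free {z : ZZ} (hz : z ∈ XX) (n : ℤ) (h : T n z = z) : n = 0 := by
  by_contra hn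
  rcases lt_or_gt_of_ne hn with h1 | h1
  · have h2 : T (-n) z = z := by
      conv_lhs => rw [← h]
      rw [T_T]; simp
    obtain ⟨k, hk⟩ : ∃ k : ℕ, -n = ((k + 1 : ℕ) : ℤ) := ⟨(-n - 1).toNat, by omega⟩
    rw [hk] at h2
    exact XX_free_aux hz k h2
  · obtain ⟨k, hk⟩ : ∃ k : ℕ, n = ((k + 1 : ℕ) : ℤ) := ⟨(n - 1).toNat, by omega⟩
    rw [hk] at h
    exact XX_free_aux hz k h

/-- periodic sequences whose visits to `U` have gaps at most `ρ` -/
def Qp (p : ℕ) (U : Set ZZ) (ρ : ℕ) : Set (PP p) :=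
  {x | ∀ u : ℤ, ∃ v ∈ Ioc u (u + ρ), T v (per x) ∈ U}

lemma inv_Qp {p : ℕ} [NeZero p] (U : Set ZZ) (ρ : ℕ) : Inv (Qp p U ρ) := by
  intro x hx j u
  obtain ⟨v, hv, h1⟩ := hx (u + j.val)
  rw [mem_Ioc] at hv
  refine ⟨v - j.val, by rw [mem_Ioc]; omega, ?_⟩
  have : rot j x = rot (((j.val : ℕ) : ℤ) : ZMod p) x := by simp
  rw [this, ← T_per, T_T]
  simpa using h1

/-- `Y` is small: for large primes the `ρ`-dense visitors of a neighbourhood are `p / N`-thin. -/
def SmallY (Y : Set ZZ) (ρ N : ℕ) : Prop :=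
  ∃ U : Set ZZ, IsOpen U ∧ Y ⊆ U ∧ ∃ p₀ : ℕ, ∀ (p : ℕ) [Fact p.Prime], p₀ ≤ p →
    Thin p (p / N) (Qp p U ρ)

/-- the return condition -/
def DD (Y : Set ZZ) (ρ R : ℕ) : Set ZZ :=
  {z | ∀ u ∈ Ico (0 : ℤ) R, ∃ v ∈ Ioc u (u + ρ), T v z ∈ Y}

lemma DD_mono {Y Y' : Set ZZ} (h : Y ⊆ Y') (ρ R : ℕ) : DD Y ρ R ⊆ DD Y' ρ R := by
  intro z hz u hu
  obtain ⟨v, hv, h1⟩ := hz u hu
  exact ⟨v, hv, h h1⟩

lemma isClosed_DD {Y : Set ZZ} (h : IsClosed Y) (ρ R : ℕ) : IsClosed (DD Y ρ R) := by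
  have h1 : DD Y ρ R = ⋂ u ∈ Ico (0 : ℤ) R, ⋃ v ∈ Ioc u (u + ρ), T v ⁻¹' Y := by
    ext z
    simp only [Set.mem_iInter, Set.mem_iUnion, exists_prop]
    rfl
  rw [h1]
  exact isClosed_biInter fun u _ => isClosed_biUnion_finset fun v _ =>
    h.preimage (continuous_T v)

lemma sep_nhds {Y : Set ZZ} (hY : IsClosed Y) (n : ℤ) (z : ZZ) (hz : T n z ∉ Y) :
    ∃ U : Set ZZ, IsOpen U ∧ Y ⊆ U ∧ ∀ᶠ z' in 𝓝 z, T n z' ∉ U := by
  obtain ⟨K, hK, hKc, hKY⟩ := exists_mem_nhds_isClosed_subset (hY.isOpen_compl.mem_nhds hz)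
  refine ⟨Kᶜ, hKc.isOpen_compl, fun y hy hyK => hKY hyK hy, ?_⟩
  have := (continuous_T n).continuousAt.preimage_mem_nhds hK
  filter_upwards [this] with z' hz' h
  exact h hz'

/-- the neighbourhood lemma -/
lemma nbhd_lemma {Y W : Set ZZ} (hY : IsClosed Y) (hW : IsOpen W) (ρ R : ℕ)
    (h : Y ∩ DD Y ρ R ⊆ W) :
    ∃ U : Set ZZ, IsOpen U ∧ Y ⊆ U ∧ U ∩ DD U ρ R ⊆ W := by
  have key : ∃ U : Set ZZ, IsOpen U ∧ Y ⊆ U ∧ ∀ z ∈ Wᶜ, ¬ (z ∈ U ∧ z ∈ DD U ρ R) := by
    have hc : IsCompact Wᶜ := hW.isClosed_compl.isCompact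
    refine hc.induction_on (p := fun s => ∃ U : Set ZZ, IsOpen U ∧ Y ⊆ U ∧
      ∀ z ∈ s, ¬ (z ∈ U ∧ z ∈ DD U ρ R)) ?_ ?_ ?_ ?_
    · exact ⟨Set.univ, isOpen_univ, Set.subset_univ _, by simp⟩
    · rintro s t hst ⟨U, h1, h2, h3⟩
      exact ⟨U, h1, h2, fun z hz => h3 z (hst hz)⟩
    · rintro s t ⟨U, h1, h2, h3⟩ ⟨U', h1', h2', h3'⟩
      refine ⟨U ∩ U', h1.inter h1', Set.subset_inter h2 h2', ?_⟩
      rintro z (hz | hz) ⟨h4, h5⟩
      · exact h3 z hz ⟨h4.1, DD_mono Set.inter_subset_left ρ R h5⟩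
      · exact h3' z hz ⟨h4.2, DD_mono Set.inter_subset_right ρ R h5⟩
    · intro z hz
      by_cases hzY : z ∈ Y
      · have hzD : z ∉ DD Y ρ R := fun h1 => hz (h ⟨hzY, h1⟩)
        unfold DD at hzD
        rw [Set.mem_ofPred_eq] at hzD
        push Not at hzD
        obtain ⟨u, hu, h1⟩ := hzD
        have h2 : ∀ v : ℤ, ∃ U : Set ZZ, IsOpen U ∧ Y ⊆ U ∧
            (v ∈ Ioc u (u + ρ) → ∀ᶠ z' in 𝓝 z, T v z' ∉ U) := by
          intro v
          by_cases hv : v ∈ Ioc u (u + ρ)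
          · obtain ⟨U, h3, h4, h5⟩ := sep_nhds hY v z (h1 v hv)
            exact ⟨U, h3, h4, fun _ => h5⟩
          · exact ⟨Set.univ, isOpen_univ, Set.subset_univ _, fun h => absurd h hv⟩
        choose U hU1 hU2 hU3 using h2
        have h4 : ∀ᶠ z' in 𝓝 z, ∀ v ∈ Ioc u (u + ρ), T v z' ∉ U v := by
          rw [Filter.eventually_all_finset]
          exact fun v hv => hU3 v hv
        refine ⟨{z' | ∀ v ∈ Ioc u (u + ρ), T v z' ∉ U v}, mem_nhdsWithin_of_mem_nhds h4,
          ⋂ v ∈ Ioc u (u + ρ), U v, isOpen_biInter_finset fun v _ => hU1 v,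
          Set.subset_iInter₂ fun v _ => hU2 v, ?_⟩
        rintro z' hz' ⟨_, h5⟩
        obtain ⟨v, hv, h6⟩ := h5 u hu
        exact hz' v hv (Set.mem_iInter₂.mp h6 v hv)
      · obtain ⟨U, h1, h2, h3⟩ := sep_nhds hY 0 z (by simpa using hzY)
        simp only [T_zero] at h3
        exact ⟨{z' | z' ∉ U}, mem_nhdsWithin_of_mem_nhds h3, U, h1, h2,
          fun z' hz' h4 => hz' h4.1⟩
  obtain ⟨U, h1, h2, h3⟩ := key
  refine ⟨U, h1, h2, fun z hz => ?_⟩
  by_contra hcon
  exact h3 z hcon hz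

/-- **The step lemma.** -/
theorem step_lemma {Y Y0 Y1 : Set ZZ} (hY : IsClosed Y) (hY0 : IsClosed Y0) (hY1 : IsClosed Y1)
    {ρ q N : ℕ} (hN : 0 < N) (hq : 12 * N ≤ q) (hρ : ρ ≤ 10 * q + 1)
    (hcov : Y ∩ DD Y ρ (10 * q + 1) ⊆ Y0 ∪ Y1)
    (h0 : SmallY Y0 (10 * q + 1) (4 * N)) (h1 : SmallY Y1 (10 * q + 1) (4 * N)) :
    SmallY Y ρ N := by
  obtain ⟨U0, hU0, hYU0, p0, hp0⟩ := h0
  obtain ⟨U1, hU1, hYU1, p1, hp1⟩ := h1
  obtain ⟨W0, hW0, hYW0, hWU0⟩ := normal_exists_closure_subset hY0 hU0 hYU0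
  obtain ⟨W1, hW1, hYW1, hWU1⟩ := normal_exists_closure_subset hY1 hU1 hYU1
  obtain ⟨U, hU, hYU, hUD⟩ := nbhd_lemma hY (hW0.union hW1) ρ (10 * q + 1)
    (hcov.trans (Set.union_subset_union hYW0 hYW1))
  have hq0 : 0 < q := by omega
  obtain ⟨g, hg0, hg1, hg⟩ := exists_continuous_zero_one_of_isClosed (s := U0ᶜ)
    (t := closure W0) hU0.isClosed_compl isClosed_closure
    (Set.disjoint_left.mpr fun z hz hz' => hz (hWU0 hz'))
  refine ⟨U, hU, hYU, max (max p0 p1) (12 * N), ?_⟩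
  intro p hpr hp
  have hpp0 : p0 ≤ p := by omega
  have hpp1 : p1 ≤ p := by omega
  have hpN : 12 * N ≤ p := by omega
  -- the set `Rest`
  let Rest : Set (PP p) := {x | (∃ a : ℤ, T a (per x) ∈ closure W0) ∧
    ∃ u : ℤ, ∀ v ∈ Ioc u (u + (10 * q + 1 : ℕ)), T v (per x) ∉ U0}
  have hRestInv : Inv Rest := by
    rintro x ⟨⟨a, ha⟩, ⟨u, hu⟩⟩ j
    have hj : rot j x = rot (((j.val : ℕ) : ℤ) : ZMod p) x := by simp
    have hT : ∀ v : ℤ, T (v - j.val) (per (rot j x)) = T v (per x) := by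
      intro v
      rw [hj, ← T_per, T_T]; simp
    refine ⟨⟨a - j.val, by rw [hT]; exact ha⟩, ⟨u - j.val, fun v hv => ?_⟩⟩
    rw [mem_Ioc] at hv
    have := hu (v + j.val) (by rw [mem_Ioc]; omega)
    rw [← hT (v + j.val)] at this
    simpa using this
  have hRest : Thin p (3 * (p / q + 1)) Rest := by
    have hcont : Continuous (fun (x : PP p) (l : ZMod p) =>
        (⟨g (per (rot l x)), hg _⟩ : I)) := by
      apply continuous_pi
      intro l
      apply Continuous.subtype_mk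
      apply g.continuous.comp
      apply continuous_pi
      intro i
      exact continuous_apply _
    apply thin_window hq0 (fun (x : PP p) (l : ZMod p) => (⟨g (per (rot l x)), hg _⟩ : I))
      (CompactSpace.uniformContinuous_of_continuous hcont)
    · intro x j
      funext l
      apply Subtype.ext
      show g (per (rot l (rot j x))) = g (per (rot (l + j) x))
      rw [rot_rot]
    · rintro x ⟨⟨a, ha⟩, ⟨u, hu⟩⟩
      refine ⟨⟨(a : ZMod p), ?_⟩, ⟨((u + 1 + 5 * q : ℤ) : ZMod p), fun i hi => ?_⟩⟩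
      · apply Subtype.ext
        show g (per (rot (a : ZMod p) x)) = 1
        rw [← T_per]
        exact hg1 ha
      · apply Subtype.ext
        show g (per (rot (((u + 1 + 5 * q : ℤ) : ZMod p) + (i : ZMod p)) x)) = 0
        have h2 : ((u + 1 + 5 * q : ℤ) : ZMod p) + (i : ZMod p) =
            ((u + 1 + 5 * q + i : ℤ) : ZMod p) := by push_cast; ring
        rw [h2, ← T_per]
        apply hg0
        apply hu
        unfold rng at hi
        rw [mem_Icc] at hi
        rw [mem_Ioc]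
        push_cast
        omega
  have hcover : Qp p U ρ ⊆ Qp p U0 (10 * q + 1) ∪ (Qp p U1 (10 * q + 1) ∪ Rest) := by
    intro x hx
    have hvis : ∀ a : ℤ, T a (per x) ∈ U → T a (per x) ∈ closure W0 ∪ closure W1 := by
      intro a ha
      have h2 : T a (per x) ∈ DD U ρ (10 * q + 1) := by
        intro u _
        obtain ⟨v, hv, h3⟩ := hx (a + u)
        rw [mem_Ioc] at hv
        refine ⟨v - a, by rw [mem_Ioc]; omega, ?_⟩
        rw [T_T]; simpa using h3
      exact Set.union_subset_union subset_closure subset_closure (hUD ⟨ha, h2⟩)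
    by_cases hx0 : x ∈ Qp p U0 (10 * q + 1)
    · exact Or.inl hx0
    right
    unfold Qp at hx0
    rw [Set.mem_ofPred_eq] at hx0
    push Not at hx0
    obtain ⟨u, hu⟩ := hx0
    by_cases ha : ∃ a : ℤ, T a (per x) ∈ closure W0
    · exact Or.inr ⟨ha, u, hu⟩
    · left
      push Not at ha
      intro w
      obtain ⟨v, hv, h3⟩ := hx w
      rw [mem_Ioc] at hv
      refine ⟨v, by rw [mem_Ioc]; push_cast; omega, ?_⟩
      rcases hvis v h3 with h4 | h4
      · exact absurd h4 (ha v)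
      · exact hWU1 h4
  have hInvU : Inv (Qp p U1 (10 * q + 1) ∪ Rest) := by
    rintro x (hx | hx) j
    · exact Or.inl (inv_Qp _ _ x hx j)
    · exact Or.inr (hRestInv x hx j)
  have hfin := (hp0 p hpp0).union ((hp1 p hpp1).union hRest (inv_Qp _ _) hRestInv) (inv_Qp _ _)
    hInvU
  apply hfin.mono hcover
  -- arithmetic
  have h2 : p / q ≤ p / (12 * N) := Nat.div_le_div_left hq (by omega)
  have h3 : p / (12 * N) = p / (4 * N) / 3 := by
    rw [Nat.div_div_eq_div_mul]; congr 1; ring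
  have h4 : p / (4 * N) = p / N / 4 := by
    rw [Nat.div_div_eq_div_mul]; congr 1; ring
  have h5 : 12 ≤ p / N := by
    rw [Nat.le_div_iff_mul_le hN]; exact hpN
  omega

/-- stages of the non-thin set -/
def AN (p n : ℕ) : Set (PP p) := {x | x ∈ OO p ∧ per x ∈ XN n}

lemma inv_AN (p n : ℕ) [NeZero p] : Inv (AN p n) := by
  rintro x ⟨h1, h2⟩ j
  refine ⟨rot_mem_OO h1 j, ?_⟩
  have : rot j x = rot (((j.val : ℕ) : ℤ) : ZMod p) x := by simp
  rw [this, ← T_per]
  exact fun k hk => NP_T (h2 k hk) _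

lemma AN_down (p n m : ℕ) [hp : Fact p.Prime] (hn : n < p) (h : Thin p m (AN p n)) :
    Thin p (m + ∑ k ∈ range n, 6 * (p / qq k + 1)) (OO p) := by
  induction n generalizing m with
  | zero =>
    apply h.mono (fun x hx => ⟨hx, fun k hk => absurd hk (by omega)⟩)
    simp
  | succ n ih =>
    have h1 : AN p n ⊆ AN p (n + 1) ∪ (BadA p (n + 1) (qq n) ∪ BadB p (n + 1) (qq n)) := by
      intro x hx
      by_cases hnp : NP (n + 1) (qq n) (per x)
      · left
        refine ⟨hx.1, fun k hk => ?_⟩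
        rcases Nat.lt_succ_iff_lt_or_eq.mp hk with h2 | rfl
        · exact hx.2 k h2
        · exact hnp
      · right
        exact bad_subset (n + 1) (qq n) x hx.1 hnp
    have hI : Inv (BadA p (n + 1) (qq n) ∪ BadB p (n + 1) (qq n)) := by
      rintro x (hx | hx) j
      · exact Or.inl (inv_BadA _ _ x hx j)
      · exact Or.inr (inv_BadB _ _ x hx j)
    have h2 := h.union ((thin_BadA (p := p) (n + 1) (qq n) (by omega) (by omega) (qq_pos n)).union
      (thin_BadB (p := p) (n + 1) (qq n) (qq_pos n)) (inv_BadA _ _) (inv_BadB _ _))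
      (inv_AN p (n + 1)) hI
    have h3 := ih _ (by omega) (h2.mono h1 le_rfl)
    apply h3.mono le_rfl
    rw [sum_range_succ]
    ring_nf
    exact le_rfl

lemma sum_qq (p n : ℕ) : ∑ k ∈ range n, 6 * (p / qq k + 1) ≤ 6 * n + p / 10 := by
  have h1 : ∀ n : ℕ, (∑ k ∈ range n, ((p : ℝ) / qq k)) = p / 64 * (1 - (1 / 2) ^ n) := by
    intro n
    induction n with
    | zero => simp
    | succ n ih =>
      have e1 : ((1 : ℝ) / 2) ^ n = 1 / 2 ^ n := one_div_pow _ _
      rw [sum_range_succ, ih, pow_succ ((1 : ℝ) / 2), e1]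
      unfold qq
      push_cast
      rw [pow_add]
      field_simp
      ring
  have h2 : ((∑ k ∈ range n, 6 * (p / qq k + 1) : ℕ) : ℝ) ≤ 6 * n + 6 * (p / 64) := by
    push_cast
    calc ∑ k ∈ range n, 6 * (((p / qq k : ℕ) : ℝ) + 1) ≤
        ∑ k ∈ range n, 6 * ((p : ℝ) / qq k + 1) := by
          apply sum_le_sum
          intro k _
          gcongr
          exact Nat.cast_div_le
      _ = 6 * n + 6 * (∑ k ∈ range n, ((p : ℝ) / qq k)) := by
          rw [← mul_sum, sum_add_distrib]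
          simp
          ring
      _ ≤ 6 * n + 6 * (p / 64) := by
          rw [h1]
          have : (0 : ℝ) ≤ (1 / 2) ^ n := by positivity
          have hp : (0 : ℝ) ≤ p / 64 := by positivity
          nlinarith
  have h3 : (∑ k ∈ range n, 6 * (p / qq k + 1)) - 6 * n ≤ p / 10 := by
    rw [Nat.le_div_iff_mul_le (by norm_num)]
    rcases le_total (∑ k ∈ range n, 6 * (p / qq k + 1)) (6 * n) with h | h
    · rw [Nat.sub_eq_zero_of_le h]; omega
    · have : (((∑ k ∈ range n, 6 * (p / qq k + 1)) - 6 * n : ℕ) : ℝ) * 10 ≤ p := by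
        rw [Nat.cast_sub h]
        push_cast
        push_cast at h2
        have hp : (0 : ℝ) ≤ p := by positivity
        nlinarith
      exact_mod_cast this
  omega

/-- **The root.** The whole system is not small. -/
theorem root_lemma : ¬ SmallY XX 1 4 := by
  rintro ⟨U, hU, hXU, p₀, hp₀⟩
  -- some finite stage lies in `U`
  obtain ⟨n, hn⟩ : ∃ n, XN n ⊆ U := by
    have h1 : ∀ n, IsClosed (XN n) := by
      intro n
      have : XN n = ⋂ k, ⋂ (_ : k < n), {z : ZZ | NP (k + 1) (qq k) z} := by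
        ext z; simp only [Set.mem_iInter]; rfl
      rw [this]
      exact isClosed_iInter fun k => isClosed_iInter fun _ => isClosed_NP _ _
    have h2 : ⋂ n, XN n = XX := by
      ext z
      simp only [Set.mem_iInter]
      constructor
      · intro h k; exact h (k + 1) k (by omega)
      · intro h n k _; exact h k
    have h3 : Directed (· ⊇ ·) XN := by
      intro a b
      exact ⟨max a b, fun z hz k hk => hz k (by omega), fun z hz k hk => hz k (by omega)⟩
    exact exists_subset_nhds_of_isCompact' h3 (fun n => (h1 n).isCompact) (fun n => h1 n)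
      (by rw [h2]; exact fun z hz => hU.mem_nhds (hXU hz))
  obtain ⟨p, hp1, hp2⟩ := Nat.exists_infinite_primes (p₀ + 100 * n + 100)
  have : Fact p.Prime := ⟨hp2⟩
  have h1 := hp₀ p (by omega)
  have h2 : AN p n ⊆ Qp p U 1 := by
    intro x hx u
    refine ⟨u + 1, by simp, hn ?_⟩
    exact fun k hk => NP_T (hx.2 k hk) _
  have h3 := AN_down p n _ (by omega) (h1.mono h2 le_rfl)
  refine not_thin_OO p (by omega) _ ?_ h3
  have := sum_qq p n
  omega

end H317F
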