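import Mathlib
import Pool.Agent.H317F.Sys
import Pool.Agent.H317F.Gpd

/-! Rich open subgroupoids of the transformation groupoid. -/

set_option linter.unusedSectionVars false

namespace H317F

open Topology

/-- the group `ℤ`, written multiplicatively -/
abbrev MZ := Multiplicative ℤ

/-- the phase space -/
abbrev XT := {z : ZZ // z ∈ XX}

instance : CompactSpace XT := isCompact_iff_compactSpace.mp isClosed_XX.isCompact

instance : MulAction MZ XT where
  smul a z := ⟨T (Multiplicative.toAdd a) z.1, T_mem_XX z.2 _⟩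
  one_smul z := Subtype.ext (T_zero z.1)
  mul_smul a b z := Subtype.ext (by
    show T (Multiplicative.toAdd (a * b)) z.1 =
      T (Multiplicative.toAdd a) (T (Multiplicative.toAdd b) z.1)
    rw [T_T]; rfl)

lemma smul_val (a : MZ) (z : XT) : (a • z).1 = T (Multiplicative.toAdd a) z.1 := rfl

instance : ContinuousConstSMul MZ XT :=
  ⟨fun _ => ((continuous_T _).comp continuous_subtype_val).subtype_mk _⟩

lemma XT_free (a : MZ) (z : XT) (h : a • z = z) : a = 1 := by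
  have h1 : T (Multiplicative.toAdd a) z.1 = z.1 := congrArg Subtype.val h
  have := XX_free z.2 _ h1
  exact Multiplicative.toAdd.injective this

/-- arrows -/
abbrev GG := MZ × XT

/-- the transformation groupoid -/
noncomputable def Zg : TopGpd XT GG := transGpd MZ XT

/-- the arrow `(k, z)` -/
def arr (k : ℕ) (z : XT) : GG := (Multiplicative.ofAdd (k : ℤ), z)

/-- richness -/
def Rich (H : Set GG) : Prop :=
  ∃ (Y : Set ZZ) (ρ N : ℕ), IsClosed Y ∧ Y ⊆ XX ∧ 0 < N ∧ ¬ SmallY Y ρ N ∧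
    ∀ z : XT, z.1 ∈ Y → ∀ k : ℕ, k ≤ ρ → T k z.1 ∈ Y → arr k z ∈ H

lemma Rich.mono {H H' : Set GG} (h : H ⊆ H') (hr : Rich H) : Rich H' := by
  obtain ⟨Y, ρ, N, h1, h2, h3, h4, h5⟩ := hr
  exact ⟨Y, ρ, N, h1, h2, h3, h4, fun z hz k hk hk' => h (h5 z hz k hk hk')⟩

lemma rich_univ : Rich Set.univ :=
  ⟨XX, 1, 4, isClosed_XX, le_rfl, by norm_num, root_lemma, fun _ _ _ _ _ => Set.mem_univ _⟩

lemma arr_mul {H : Set GG} (hH : Zg.IsSubgpd H) (k v : ℕ) (z w : XT)
    (hw : w.1 = T v z.1) (h1 : arr k w ∈ H) (h2 : arr v z ∈ H) : arr (k + v) z ∈ H := by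
  have hw' : w = (Multiplicative.ofAdd (v : ℤ)) • z := Subtype.ext hw
  have := hH.mul_mem _ h1 _ h2 hw'
  have h3 : Zg.mul (arr k w) (arr v z) = arr (k + v) z := by
    show ((Multiplicative.ofAdd (k : ℤ) * Multiplicative.ofAdd (v : ℤ), z) : GG) = _
    unfold arr
    rw [← ofAdd_add]
    push_cast
    rfl
  rwa [h3] at this

section Chain

variable {H : Set GG} (hH : Zg.IsSubgpd H) {Y : Set ZZ} {ρ : ℕ}
  (hY : ∀ z : XT, z.1 ∈ Y → ∀ k : ℕ, k ≤ ρ → T k z.1 ∈ Y → arr k z ∈ H)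

include hH hY

lemma chain_unbounded {R : ℕ} (z : XT) (hz : z.1 ∈ Y) (hD : z.1 ∈ DD Y ρ R) (n : ℕ)
    (hn : n ≤ R) : ∃ v : ℕ, n ≤ v ∧ T v z.1 ∈ Y ∧ arr v z ∈ H := by
  induction n with
  | zero =>
    have h0 : T ((0 : ℕ) : ℤ) z.1 ∈ Y := by simpa using hz
    exact ⟨0, le_rfl, h0, hY z hz 0 (Nat.zero_le _) h0⟩
  | succ n ih =>
    obtain ⟨v, h1, h2, h3⟩ := ih (by omega)
    by_cases h4 : n + 1 ≤ v
    · exact ⟨v, h4, h2, h3⟩
    · have hvn : v = n := by omega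
      subst hvn
      obtain ⟨v', hv', h5⟩ := hD v (by rw [Finset.mem_Ico]; omega)
      rw [Finset.mem_Ioc] at hv'
      obtain ⟨k, hk⟩ : ∃ k : ℕ, v' = ((k + v : ℕ) : ℤ) := ⟨(v' - v).toNat, by push_cast; omega⟩
      have hkρ : k ≤ ρ := by omega
      have h6 : T (k : ℤ) (T (v : ℤ) z.1) ∈ Y := by
        rw [T_T]
        have : (k : ℤ) + v = v' := by rw [hk]; push_cast; rfl
        rwa [this]
      have h7 := hY ⟨T v z.1, T_mem_XX z.2 _⟩ h2 k hkρ h6
      refine ⟨k + v, by omega, ?_, arr_mul hH k v z _ rfl h7 h3⟩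
      rw [← hk]; exact h5

lemma chain_to {R : ℕ} (z : XT) (hz : z.1 ∈ Y) (hD : z.1 ∈ DD Y ρ R) (m : ℕ) (hm : m ≤ R)
    (hmY : T m z.1 ∈ Y) : arr m z ∈ H := by
  have key : ∀ n ≤ m, ∃ v : ℕ, n ≤ v ∧ v ≤ m ∧ T v z.1 ∈ Y ∧ arr v z ∈ H := by
    intro n hn
    induction n with
    | zero =>
      have h0 : T ((0 : ℕ) : ℤ) z.1 ∈ Y := by simpa using hz
      exact ⟨0, le_rfl, Nat.zero_le _, h0, hY z hz 0 (Nat.zero_le _) h0⟩
    | succ n ih =>
      obtain ⟨v, h1, h1', h2, h3⟩ := ih (by omega)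
      by_cases h4 : n + 1 ≤ v
      · exact ⟨v, h4, h1', h2, h3⟩
      · have hvn : v = n := by omega
        subst hvn
        obtain ⟨v', hv', h5⟩ := hD v (by rw [Finset.mem_Ico]; omega)
        rw [Finset.mem_Ioc] at hv'
        -- the next visit, or the end point
        obtain ⟨k, hk1, hk2, hk3, hk4⟩ : ∃ k : ℕ, 0 < k ∧ k ≤ ρ ∧ k + v ≤ m ∧
            T ((k + v : ℕ) : ℤ) z.1 ∈ Y := by
          by_cases hcase : v' ≤ m
          · refine ⟨(v' - v).toNat, by omega, by omega, by omega, ?_⟩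
            have : (((v' - v).toNat + v : ℕ) : ℤ) = v' := by push_cast; omega
            rw [this]; exact h5
          · refine ⟨m - v, by omega, by omega, by omega, ?_⟩
            have : ((m - v + v : ℕ) : ℤ) = m := by omega
            rw [this]; exact hmY
        have h6 : T (k : ℤ) (T (v : ℤ) z.1) ∈ Y := by
          rw [T_T]
          have : (k : ℤ) + v = ((k + v : ℕ) : ℤ) := by push_cast; rfl
          rwa [this]
        have h7 := hY ⟨T v z.1, T_mem_XX z.2 _⟩ h2 k hk2 h6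
        exact ⟨k + v, by omega, hk3, hk4, arr_mul hH k v z _ rfl h7 h3⟩
  obtain ⟨v, h1, h2, _, h4⟩ := key m le_rfl
  have : v = m := by omega
  rwa [this] at h4

end Chain

/-- a rich subgroupoid is not relatively compact -/
theorem not_rich_of_relCompact {H : Set GG} (hH : Zg.IsSubgpd H) (hc : IsCompact (closure H)) :
    ¬ Rich H := by
  rintro ⟨Y, ρ, N, hYc, hYX, hN, hsmall, hY⟩
  -- bound on the group component
  have h1 : ((fun g : GG => g.1) '' closure H).Finite :=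
    isCompact_iff_finite.mp (hc.image continuous_fst)
  have h2 : ((fun g : GG => (Multiplicative.toAdd g.1).natAbs) '' closure H).Finite := by
    have := h1.image (fun a : MZ => (Multiplicative.toAdd a).natAbs)
    rw [Set.image_image] at this
    exact this
  obtain ⟨M, hM⟩ := h2.bddAbove
  have h3 : ∀ v z, arr v z ∈ H → v ≤ M := by
    intro v z hv
    have := hM ⟨arr v z, subset_closure hv, rfl⟩
    simpa [arr] using this
  apply hsmall
  have h4 : Y ∩ DD Y ρ (M + 1) ⊆ ∅ := by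
    rintro z ⟨hz, hD⟩
    obtain ⟨v, h5, h6, h7⟩ := chain_unbounded hH hY ⟨z, hYX hz⟩ hz hD (M + 1) le_rfl
    have := h3 v _ h7
    omega
  obtain ⟨U, hU, hYU, hUD⟩ := nbhd_lemma hYc isOpen_empty ρ (M + 1) h4
  refine ⟨U, hU, hYU, 0, fun p hp _ => ?_⟩
  have h5 : Qp p U ρ = ∅ := by
    rw [Set.eq_empty_iff_forall_notMem]
    intro x hx
    obtain ⟨a, _, ha⟩ := hx 0
    apply hUD (a := T a (per x))
    refine ⟨ha, fun u _ => ?_⟩
    obtain ⟨v, hv, h6⟩ := hx (a + u)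
    rw [Finset.mem_Ioc] at hv
    refine ⟨v - a, by rw [Finset.mem_Ioc]; omega, ?_⟩
    rw [T_T]; simpa using h6
  rw [h5]
  refine ⟨∅, 1, one_pos, by simp, ?_⟩
  intro S hS _
  have : S = ∅ := Set.subset_empty_iff.mp hS
  subst this
  simp

/-- **Richness survives decomposition.** -/
theorem rich_step {H : Set GG} (hHo : IsOpen H) (hH : Zg.IsSubgpd H) (hr : Rich H) :
    ∃ K : Set GG, IsOpen K ∧ K ⊆ H ∧ IsCompact (closure K) ∧ closure K ⊆ H ∧
      ∀ U0 U1 : Set XT, IsOpen U0 → IsOpen U1 → Zg.units H ⊆ U0 ∪ U1 →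
        Rich (Zg.gen {g ∈ K | Zg.s g ∈ U0 ∧ Zg.r g ∈ U0}) ∨
        Rich (Zg.gen {g ∈ K | Zg.s g ∈ U1 ∧ Zg.r g ∈ U1}) := by
  obtain ⟨Y, ρ, N, hYc, hYX, hN, hsmall, hY⟩ := hr
  set q := 12 * N + ρ with hq
  set R := 10 * q + 1 with hR
  let Y' : Set ZZ := Y ∩ DD Y ρ R
  have hY'c : IsClosed Y' := hYc.inter (isClosed_DD hYc ρ R)
  -- the compact set of arrows
  let 𝒞 : Set GG := ⋃ k ∈ Finset.range (R + 1), (fun z : XT => arr k z) ''
    {z : XT | z.1 ∈ Y' ∧ T k z.1 ∈ Y'}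
  have h𝒞c : IsCompact 𝒞 := by
    apply (Finset.range (R + 1)).isCompact_biUnion
    intro k _
    apply IsCompact.image
    · apply IsClosed.isCompact
      exact (hY'c.preimage continuous_subtype_val).inter
        (hY'c.preimage ((continuous_T _).comp continuous_subtype_val))
    · exact continuous_const.prodMk continuous_id
  have h𝒞H : 𝒞 ⊆ H := by
    intro g hg
    simp only [𝒞, Set.mem_iUnion] at hg
    obtain ⟨k, hk, z, ⟨h1, h2⟩, rfl⟩ := hg
    rw [Finset.mem_range] at hk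
    exact chain_to hH hY z h1.1 h1.2 k (by omega) h2.1
  obtain ⟨L, hLc, h𝒞L, hLH⟩ := exists_compact_between h𝒞c hHo h𝒞H
  have hcl : closure (interior L) ⊆ L := by
    exact closure_minimal interior_subset hLc.isClosed
  refine ⟨interior L, isOpen_interior, interior_subset.trans hLH,
    hLc.of_isClosed_subset isClosed_closure hcl, hcl.trans hLH, ?_⟩
  intro U0 U1 hU0 hU1 hcov
  -- split `Y'`
  have hY'K : IsCompact {z : XT | z.1 ∈ Y'} := (hY'c.preimage continuous_subtype_val).isCompact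
  have hcov' : {z : XT | z.1 ∈ Y'} ⊆ U0 ∪ U1 := by
    intro z hz
    apply hcov
    have h0 : T ((0 : ℕ) : ℤ) z.1 ∈ Y := by simpa using hz.1
    have := hY z hz.1 0 (Nat.zero_le _) h0
    show ((1 : MZ), z) ∈ H
    exact this
  obtain ⟨K0, K1, hK0, hK1, hK0U, hK1U, hK⟩ := hY'K.binary_compact_cover hU0 hU1 hcov'
  let Y0 : Set ZZ := Subtype.val '' K0
  let Y1 : Set ZZ := Subtype.val '' K1
  have hY0c : IsClosed Y0 := (hK0.image continuous_subtype_val).isClosed
  have hY1c : IsClosed Y1 := (hK1.image continuous_subtype_val).isClosed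
  have hY01 : Y' ⊆ Y0 ∪ Y1 := by
    intro z hz
    have hz' : (⟨z, hYX hz.1⟩ : XT) ∈ K0 ∪ K1 := by rw [← hK]; exact hz
    rcases hz' with h | h
    · exact Or.inl ⟨_, h, rfl⟩
    · exact Or.inr ⟨_, h, rfl⟩
  -- the arrows inside a piece
  have harr : ∀ (Ki : Set XT) (Ui : Set XT), Ki ⊆ Ui → Ki ⊆ {z : XT | z.1 ∈ Y'} →
      ∀ z : XT, z.1 ∈ Subtype.val '' Ki → ∀ k : ℕ, k ≤ R → T k z.1 ∈ Subtype.val '' Ki →
        arr k z ∈ Zg.gen {g ∈ interior L | Zg.s g ∈ Ui ∧ Zg.r g ∈ Ui} := by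
    intro Ki Ui hKU hKY z hz k hk hz'
    apply TopGpd.subset_gen
    obtain ⟨w, hw, hw'⟩ := hz
    have hwz : w = z := Subtype.ext hw'
    subst hwz
    obtain ⟨w', hw'', hw'''⟩ := hz'
    refine ⟨h𝒞L ?_, hKU hw, ?_⟩
    · simp only [𝒞, Set.mem_iUnion]
      refine ⟨k, by rw [Finset.mem_range]; omega, w, ⟨hKY hw, ?_⟩, rfl⟩
      rw [← hw''']
      exact hKY hw''
    · have : Zg.r (arr k w) = w' := Subtype.ext hw'''.symm
      rw [this]
      exact hKU hw''
  have hsub0 : K0 ⊆ {z : XT | z.1 ∈ Y'} := by rw [hK]; exact Set.subset_union_left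
  have hsub1 : K1 ⊆ {z : XT | z.1 ∈ Y'} := by rw [hK]; exact Set.subset_union_right
  have hX0 : Y0 ⊆ XX := by rintro _ ⟨w, _, rfl⟩; exact w.2
  have hX1 : Y1 ⊆ XX := by rintro _ ⟨w, _, rfl⟩; exact w.2
  by_cases hs0 : SmallY Y0 R (4 * N)
  · by_cases hs1 : SmallY Y1 R (4 * N)
    · exfalso
      exact hsmall (step_lemma hYc hY0c hY1c hN (by omega) (by omega) hY01 hs0 hs1)
    · right
      exact ⟨Y1, R, 4 * N, hY1c, hX1, by omega, hs1, harr K1 U1 hK1U hsub1⟩
  · left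
    exact ⟨Y0, R, 4 * N, hY0c, hX0, by omega, hs0, harr K0 U0 hK0U hsub0⟩

end H317F
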